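import Pool.Agent.Lib_helper71.TU.Sym

set_option autoImplicit false

/-!
# Elements built on the functions supported on a finite group of points

`W` is a Weierstrass curve over `k`, `H` a group of points of `W` over `k`, and `(X, Y)` a generic
point of `W` with coordinates in a field `F` over `k`.
-/

open WeierstrassCurve.Affine MeasureTheory

namespace Pool.Agent.TK4

noncomputable section

variable {k F : Type*} [Field k] [Field F] [Algebra k F]

/-- `(X, Y)` is a generic point of `W`. -/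
structure Generic (W : WeierstrassCurve.Affine k) (X Y : F) : Prop where
  eq : Equation (W.map (algebraMap k F)) X Y
  tr : Transcendental k X

/-- The value at `(x, y)` of the polynomial `A` in two variables, with respect to `σ : k → S`. -/
def ev {S : Type*} [Field S] (σ : k →+* S) (x y : S) (A : MvPolynomial (Fin 2) k) : S :=
  A.eval₂ σ ![x, y]

/-- `f = A(x,y)/B(x,y)` is a rational function of `x`, `y`, and `φ s = A(p s, q s)/B(p s, q s)` is
its value at the real point `(p s, q s)`. -/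
inductive Val (σ : k →+* ℝ) (x y : F) (p q : ℝ → ℝ) : F → (ℝ → ℝ) → Prop
  | mk (A B : MvPolynomial (Fin 2) k) : ev (algebraMap k F) x y B ≠ 0 →
    Val σ x y p q (ev (algebraMap k F) x y A / ev (algebraMap k F) x y B)
      fun s => ev σ (p s) (q s) A / ev σ (p s) (q s) B

/-- `s ↦ (p s, q s)` runs once through the component of the origin of the real points of `V`, except
for the origin itself: the point moves with positive speed with respect to the invariant
differential, it comes from the origin and goes to the origin. -/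
structure Loop (V : WeierstrassCurve.Affine ℝ) (p q : ℝ → ℝ) : Prop where
  eq : ∀ s, V.Equation (p s) (q s)
  der : ∃ v : ℝ → ℝ, ∀ s, 0 < v s ∧ HasDerivAt p (v s * (2 * q s + V.a₁ * p s + V.a₃)) s ∧
    HasDerivAt q (v s * (3 * p s ^ 2 + 2 * V.a₂ * p s + V.a₄ - V.a₁ * q s)) s
  lim : Filter.Tendsto p (Filter.cocompact ℝ) Filter.atTop

/-- `log|ψ| (b da - a db)` with `a = log|φ|`, `b = log|1-φ|`. -/
def den (φ ψ : ℝ → ℝ) (s : ℝ) : ℝ :=
  Real.log (ψ s) * (Real.log (1 - φ s) * logDeriv φ s -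
    Real.log (φ s) * logDeriv (fun s => 1 - φ s) s)

/-- With respect to `σ : k → ℝ`, the regulator of `ξ` on the real points of the curve with function
field `F` is not zero, for some Weierstrass equation `W` and some `x`, `y` with `F = k(x, y)`.  The
regulator `r (f, g)` of `{f}₂ ⊗ g` is the absolutely convergent integral of `log|g| (b da - a db)`,
`a = log|f|`, `b = log|1-f|`, over the component of the origin; it respects the relations. -/
inductive RegNe (σ : k →+* ℝ) (ξ : F × F →₀ ℚ) : Prop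
  | mk (W : WeierstrassCurve.Affine k) (x y : F) (p q : ℝ → ℝ) (r : F × F → ℝ) :
    Generic W x y → IntermediateField.adjoin k {x, y} = ⊤ → Loop (W.map σ) p q →
    (∀ f g φ ψ, g ≠ 0 → Val σ x y p q f φ → Val σ x y p q g ψ →
      Integrable (den φ ψ) ∧ r (f, g) = ∫ s, den φ ψ s) →
    (∀ z ∈ Rel F, z.sum (fun p n => n * r p) = 0) → ξ.sum (fun p n => n * r p) ≠ 0 → RegNe σ ξ

variable [DecidableEq k] {W : WeierstrassCurve.Affine k}

/-- The `f` such that `f` and `1 - f` are supported on `H`, i.e. units of the ring of the functions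
regular outside `H`; this ring is generated by `X`, `Y` and the `1/(X - x(Q))`, `Q` in `H`. -/
def T (H : AddSubgroup W.Point) (X Y : F) : Set F :=
  {f | f ≠ 0 ∧ f ≠ 1 ∧ {f, f⁻¹, (1 - f)⁻¹} ⊆ (Algebra.adjoin k ({X, Y} ∪
    {g | ∃ a b h, Point.some a b h ∈ H ∧ g = (X - algebraMap k F a)⁻¹}) : Set F)}

/-- The closed elements of the span of the `{f}₂ ⊗ u`, `f` in `T`, `u` in `F^*`, are multiples of
`ξ` up to the `{c}₂ ⊗ u`, `c` constant; if `k` is algebraically closed and `F = k(X, Y)`, those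
without residues are multiples of `ξ` up to the `{c}₂ ⊗ κ`, `c` and `κ` constant. -/
def ClosedIn (H : AddSubgroup W.Point) (X Y : F) (ξ : F × F →₀ ℚ) : Prop :=
  ∀ z ∈ Sp (T H X Y) Set.univ 0, Closed z → z ∈ Sp (Set.range (algebraMap k F)) Set.univ ξ ∧
    (IsAlgClosed k → IntermediateField.adjoin k {X, Y} = ⊤ → NoRes k z →
      z ∈ Sp (Set.range (algebraMap k F)) (Set.range (algebraMap k F)) ξ)

/-- The closed elements are the multiples of one class `ξ` up to the constants; this class has no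
residues, and its regulator is not zero if `k` is a subfield of `ℝ` and `F = k(X, Y)`. -/
def Line (H : AddSubgroup W.Point) (X Y : F) : Prop :=
  ∃ ξ ∈ Sp (T H X Y) Set.univ 0, Closed ξ ∧ NoRes k ξ ∧ ClosedIn H X Y ξ ∧
    ∀ σ : k →+* ℝ, IntermediateField.adjoin k {X, Y} = ⊤ → RegNe σ ξ

/-- Tate's normal form with respect to the point `P`: in suitable coordinates the curve is
`y² + (1-c)xy - by = x³ - bx²` and `P = (0,0)`. -/
inductive Tate (P : W.Point) (b c : k) : Prop
  | mk (C : WeierstrassCurve.VariableChange k) (h : W.Nonsingular C.r C.t) :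
    P = .some C.r C.t h → C • W = ⟨1 - c, -b, -b, 0, 0⟩ → b ≠ 0 → Tate P b c

/-- The members of `l` are multiplicatively independent. -/
def Ind {k : Type*} [Field k] (l : List k) : Prop :=
  ∀ e : Fin l.length → ℤ, ∏ i, l.get i ^ e i = 1 → ∀ i, e i = 0

/-- Points of order `N = 4, …, 10, 12`: the parameter `t`, the coefficients `b`, `c` of Tate's
normal form, the factors `l` of `b` and `c`, a further condition `s` on `t`, the exceptional values
`e₁` of `t` with one class, and the further values `e₀` without classes. -/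
inductive Kub {k : Type*} [Field k] : ℕ → k → k → k → List k → Prop → Set k → Set k → Prop
  | four (t : k) : Kub 4 t t 0 [t] True {t | IsOfFinOrder t} ∅
  | five (t : k) : Kub 5 t t t [t] True {1, -1} ∅
  | six (t : k) : Kub 6 t (t + t ^ 2) t [t, t + 1] (3 * t ≠ 1 ∧ 3 * t ≠ -1 ∧ 5 * t ≠ -1)
      {1, -2, -1 / 2, 1 / 3, -1 / 3, -1 / 5} ∅
  | seven (t : k) : Kub 7 t (t ^ 3 - t ^ 2) (t ^ 2 - t) [t, t - 1] True {2, -1, 1 / 2} ∅
  | eight (t : k) : Kub 8 t ((2 * t - 1) * (t - 1)) ((2 * t - 1) * (t - 1) / t)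
      [t, t - 1, 2 * t - 1] True {2, -1, 1 / 3, 2 / 3, 3 / 2, -1 / 2, 1 / 4, 3 / 4} ∅
  | nine (t : k) : Kub 9 t (t ^ 2 * (t - 1) * (t ^ 2 - t + 1)) (t ^ 2 * (t - 1))
      [t, t - 1, t ^ 2 - t + 1] (t ^ 3 - 3 * t ^ 2 + 1 ≠ 0 ∧ t ^ 3 + 3 * t ^ 2 - 6 * t + 1 ≠ 0)
      {2, -1, 1 / 2} ∅
  | ten (t c w : k) : w = t ^ 2 - 3 * t + 1 → c = -(t * (t - 1) * (2 * t - 1)) / w →
      Kub 10 t (-t ^ 2 * c / w) c [t, t - 1, 2 * t - 1, w] True {2, -1, 1 / 3, 2 / 3}
      {3, 2 / 5, 5 / 2, 3 / 8, -1 / 2, 3 / 4, 3 / 2, 1 / 4}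
  | twelve (t c r p q : k) : r = 2 * t - 1 → q = 2 * t ^ 2 - 2 * t + 1 →
      p = 3 * t ^ 2 - 3 * t + 1 → c = t * r * p / (1 - t) ^ 3 →
      Kub 12 t (q / (1 - t) * c) c [t, t - 1, r, q, p]
      (∀ a : k, a = t * (t - 1) * r ^ 2 / p ∨ a = -(t * (t - 1) / p) ^ 2 →
        3 * a ≠ 1 ∧ 3 * a ≠ -1 ∧ 5 * a ≠ -1) {1 / 3, 2 / 3} {2, -1, -1 / 2, 3 / 2, 1 / 4, 3 / 4}

/-- Points of order `4, …, 10, 12`. -/
def Cyc (P : W.Point) (X Y : F) : Prop :=
  ∃ t b c l s e₁ e₀, Kub (addOrderOf P) t b c l s e₁ e₀ ∧ Tate P b c ∧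
    (Ind l ∧ s ∨ t ∈ e₀ → ClosedIn (AddSubgroup.zmultiples P) X Y 0) ∧
    (t ∈ e₁ → Line (AddSubgroup.zmultiples P) X Y)

/-- For a finite group `H` of points of odd order, with the set `A` of abscissas: the numbers
`(4x³ + b₂x² + 2b₄x + b₆) ∏ (x - z)²`, the product over the `z ≠ x` in `A`, are multiplicatively
independent for exponents of sum zero. -/
structure SiegelIndep (H : AddSubgroup W.Point) : Prop where
  ind : ∀ (A : Finset k) (e : k → ℤ), (∀ x, x ∈ A ↔ ∃ y h, Point.some x y h ∈ H) →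
    ∑ x ∈ A, e x = 0 → ∏ x ∈ A, ((4 * x ^ 3 + W.b₂ * x ^ 2 + 2 * W.b₄ * x + W.b₆) *
      ∏ z ∈ A \ {x}, (x - z) ^ 2) ^ e x = 1 → ∀ x ∈ A, e x = 0

/-- The automorphisms of the field `k` which fix the coefficients of the curve act transitively on
the points `(x, y)` with `p (x, y) = 0`. -/
def GalTrans (W : WeierstrassCurve.Affine k) (p : ℕ) : Prop :=
  ∀ (x y x' y' : k) (h : W.Nonsingular x y) (h' : W.Nonsingular x' y'),
    p • Point.some x y h = 0 → p • Point.some x' y' h' = 0 →
      ∃ s : k →+* k, Function.Bijective s ∧ W.map s = W ∧ s x = x' ∧ s y = y'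

/-- Finite groups `H`: if the order is at most three or `H` is the group of the points killed by two,
or if the order is a prime `p ≥ 5` and one of three conditions holds, then the closed elements are
constant. -/
structure General [CharZero k] (H : AddSubgroup W.Point) (X Y : F) : Prop where
  small : Nat.card H ≤ 3 ∨ (Nat.card H = 4 ∧ ∀ a ∈ H, a + a = 0) → ClosedIn H X Y 0
  prime : ∀ p : ℕ, p.Prime → 5 ≤ p → Nat.card H = p →
    SiegelIndep H ∨ Transcendental ℚ (W.c₄ ^ 3 / W.Δ) ∨
      ((∃ O : ValuationSubring k, (p : k)⁻¹ ∈ O ∧ W.c₄ ^ 3 / W.Δ ∉ O) ∧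
        (∃ P : W.Point, p • P = 0 ∧ P ∉ H) ∧ GalTrans W p) → ClosedIn H X Y 0

/-- Over `ℚ`, for every point of finite order (by Mazur's theorem the order is at most ten or
twelve): the closed elements are constant, or they are, up to the constants, the multiples of one
class without residues, whose regulator is not zero. -/
def Rational.{v} : Prop :=
  ∀ (F : Type v) [Field F] [Algebra ℚ F] (W : WeierstrassCurve.Affine ℚ) (X Y : F),
    Generic W X Y → ∀ P : W.Point, addOrderOf P ≠ 0 → addOrderOf P ≤ 10 ∨ addOrderOf P = 12 →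
      ClosedIn (AddSubgroup.zmultiples P) X Y 0 ∨ Line (AddSubgroup.zmultiples P) X Y

end

end Pool.Agent.TK4
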