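import Pool.Agent.Lib_helper71.TU.BrN
import Pool.Agent.Lib_helper71.TU.Cur
import Pool.Agent.Lib_helper24.FAM.DefsU

set_option autoImplicit false

/-!
# The curve: generic points, the regulator, the closed elements
-/

open scoped TensorProduct WithZero

namespace Pool.Agent.TK4

open WeierstrassCurve.Affine

noncomputable section

variable {k F : Type*} [Field k] [Field F] [Algebra k F]

theorem generic_iff (W : WeierstrassCurve.Affine k) (X Y : F) :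
    Generic W X Y ↔ FK4.Generic W X Y := by
  constructor
  · rintro ⟨h1, h2⟩
    rw [equation_iff] at h1
    exact ⟨h1, h2⟩
  · rintro ⟨h1, h2⟩
    refine ⟨?_, h2⟩
    rw [equation_iff]
    exact h1

lemma val_old {σ : k →+* ℝ} {x y : F} {p q : ℝ → ℝ} {f : F} {φ : ℝ → ℝ}
    (h : Val σ x y p q f φ) : FK4.Val σ x y p q f φ := by
  cases h with
  | mk A B hB => exact ⟨A, B, hB, rfl, fun s => rfl⟩

lemma val_new {σ : k →+* ℝ} {x y : F} {p q : ℝ → ℝ} {f : F} {φ : ℝ → ℝ}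
    (h : FK4.Val σ x y p q f φ) : Val σ x y p q f φ := by
  obtain ⟨A, B, hB, rfl, h⟩ := h
  obtain rfl : φ = fun s => MvPolynomial.eval₂ σ ![p s, q s] A / MvPolynomial.eval₂ σ ![p s, q s] B :=
    funext h
  exact Val.mk A B hB

lemma den_eq (φ ψ : ℝ → ℝ) : den φ ψ = FK4.den φ ψ := by
  funext s
  unfold den FK4.den
  rw [logDeriv_apply, logDeriv_apply, deriv_const_sub, neg_div, mul_neg, sub_neg_eq_add]

lemma loop_new {W : WeierstrassCurve.Affine k} {σ : k →+* ℝ} {p q : ℝ → ℝ}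
    (h : FK4.Loop W σ p q) : Loop (W.map σ) p q := by
  obtain ⟨h1, h2, h3⟩ := h
  refine ⟨fun s => ?_, h2, h3⟩
  rw [equation_iff]
  exact h1 s

lemma sum_R {M : Type*} [AddCommGroup M] [Module ℚ M] (R : MK4.HK F →ₗ[ℚ] M) (z : F × F →₀ ℚ) :
    z.sum (fun p n => n • R (MK4.hk (MK4.sy p.1) (MK4.lg p.2))) = R (phi F z) := by
  rw [phi_eq_sum, map_finsuppSum]
  simp only [map_smul]

theorem regNe_of {σ : k →+* ℝ} {ξ : F × F →₀ ℚ} (h : FK4.RegNe σ (phi F ξ)) : RegNe σ ξ := by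
  obtain ⟨W, x, y, p, q, R, hg, ht, hl, hr, hz⟩ := h
  have key : ∀ z : F × F →₀ ℚ, z.sum (fun p n => (n : ℝ) * R (MK4.hk (MK4.sy p.1) (MK4.lg p.2))) =
      R (phi F z) := by
    intro z
    rw [← sum_R]
    refine Finsupp.sum_congr fun p _ => ?_
    rw [Rat.smul_def]
  refine ⟨W, x, y, p, q, fun p => R (MK4.hk (MK4.sy p.1) (MK4.lg p.2)), (generic_iff W x y).mpr hg,
    ht, loop_new hl, fun f g φ ψ hg' hf hgv => ?_, fun z hz' => ?_, ?_⟩
  · rw [den_eq]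
    exact hr f g φ ψ hg' (val_old hf) (val_old hgv)
  · rw [key, phi_rel hz', map_zero]
  · rw [key]
    exact hz

variable [DecidableEq k] {W : WeierstrassCurve.Affine k}

theorem mem_T (H : AddSubgroup W.Point) (X Y f : F) :
    f ∈ T H X Y ↔ FK4.Supp H X Y f ∧ FK4.Supp H X Y (1 - f) := by
  unfold T FK4.Supp FK4.Reg
  rw [Set.mem_ofPred_eq, Set.insert_subset_iff, Set.insert_subset_iff, Set.singleton_subset_iff]
  constructor
  · rintro ⟨h0, h1, ha, hb, hc⟩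
    exact ⟨⟨h0, ha, hb⟩, sub_ne_zero.mpr (Ne.symm h1), sub_mem (one_mem _) ha, hc⟩
  · rintro ⟨⟨h0, ha, hb⟩, h1, _, hc⟩
    exact ⟨h0, fun h => h1 (by rw [h, sub_self]), ha, hb, hc⟩

lemma sp_set (H : AddSubgroup W.Point) (X Y : F) :
    ({z | ∃ a ∈ T H X Y, ∃ b ∈ (Set.univ : Set F), z = MK4.hk (MK4.sy a) (MK4.lg b)} :
      Set (MK4.HK F)) = {z | ∃ f u : F, FK4.Supp H X Y f ∧ FK4.Supp H X Y (1 - f) ∧
        z = MK4.hk (MK4.sy f) (MK4.lg u)} := by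
  ext z
  constructor
  · rintro ⟨a, ha, b, -, rfl⟩
    rw [mem_T] at ha
    exact ⟨a, b, ha.1, ha.2, rfl⟩
  · rintro ⟨a, b, h1, h2, rfl⟩
    exact ⟨a, (mem_T H X Y a).mpr ⟨h1, h2⟩, b, trivial, rfl⟩

theorem mem_S (H : AddSubgroup W.Point) (X Y : F) (z : F × F →₀ ℚ) :
    z ∈ Sp (T H X Y) Set.univ 0 ↔ phi F z ∈ FK4.Sp H X Y := by
  rw [mem_Sp_zero, sp_set]
  rfl

lemma exists_S {H : AddSubgroup W.Point} {X Y : F} {w : MK4.HK F} (hw : w ∈ FK4.Sp H X Y) :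
    ∃ z, phi F z = w ∧ z ∈ Sp (T H X Y) Set.univ 0 := by
  have h : w ∈ Submodule.span ℚ (phi F '' Set.image2 sym (T H X Y) Set.univ) := by
    rw [image_sym, sp_set]
    exact hw
  rw [← Submodule.map_span] at h
  obtain ⟨z, -, rfl⟩ := h
  exact ⟨z, rfl, (mem_S H X Y z).mpr hw⟩

omit [DecidableEq k] in
lemma mem_cst {z ξ : F × F →₀ ℚ} {l : MK4.HK F} (hl : l ∈ Submodule.span ℚ {phi F ξ})
    (h : phi F z - l ∈ MK4.Cst k F) : z ∈ Sp (Set.range (algebraMap k F)) Set.univ ξ := by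
  rw [mem_Sp]
  have e : phi F z = (phi F z - l) + l := (sub_add_cancel _ _).symm
  rw [e]
  refine Submodule.add_mem _ (Submodule.span_mono ?_ h) (Submodule.span_mono ?_ hl)
  · rintro w ⟨c, u, rfl⟩
    exact Or.inr ⟨_, ⟨c, rfl⟩, u, trivial, rfl⟩
  · rintro w rfl
    exact Or.inl rfl

omit [DecidableEq k] in
lemma mem_cst₀ {z ξ : F × F →₀ ℚ} {l : MK4.HK F} (hl : l ∈ Submodule.span ℚ {phi F ξ})
    (h : phi F z - l ∈ MK4.Cst₀ k F) :
    z ∈ Sp (Set.range (algebraMap k F)) (Set.range (algebraMap k F)) ξ := by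
  rw [mem_Sp]
  have e : phi F z = (phi F z - l) + l := (sub_add_cancel _ _).symm
  rw [e]
  refine Submodule.add_mem _ (Submodule.span_mono ?_ h) (Submodule.span_mono ?_ hl)
  · rintro w ⟨c, κ, rfl⟩
    exact Or.inr ⟨_, ⟨c, rfl⟩, _, ⟨κ, rfl⟩, rfl⟩
  · rintro w rfl
    exact Or.inl rfl

theorem closedIn_of [CharZero k] {H : AddSubgroup W.Point} {X Y : F} {L : Submodule ℚ (MK4.HK F)}
    {ξ : F × F →₀ ℚ} (hL : L ≤ Submodule.span ℚ {phi F ξ}) (h : FK4.ClosedIn H X Y L) :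
    ClosedIn H X Y ξ := by
  obtain ⟨h1, h2⟩ := h
  intro z hz hc
  have hz' := (mem_S H X Y z).mp hz
  have hc' := (closed_iff z).mp hc
  refine ⟨?_, fun ha ht hr => ?_⟩
  · obtain ⟨l, hl, hm⟩ := h1 _ hz' hc'
    exact mem_cst (hL hl) hm
  · obtain ⟨l, hl, hm⟩ := h2 ha ht _ hz' hc' ((noRes_iff k z).mp hr)
    exact mem_cst₀ (hL hl) hm

theorem closedIn_bot [CharZero k] {H : AddSubgroup W.Point} {X Y : F}
    (h : FK4.ClosedIn H X Y ⊥) : ClosedIn H X Y 0 := closedIn_of bot_le h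

theorem line_of [CharZero k] {P : W.Point} {X Y : F} (h : FK4.Line P X Y) :
    Line (AddSubgroup.zmultiples P) X Y := by
  obtain ⟨w, ⟨hs, hc, hu⟩, hl, hr⟩ := h
  obtain ⟨ξ, rfl, hξ⟩ := exists_S hs
  exact ⟨ξ, hξ, (closed_iff ξ).mpr hc, (noRes_iff k ξ).mpr hu, closedIn_of le_rfl hl,
    fun σ hσ => regNe_of (hr σ hσ)⟩

end

end Pool.Agent.TK4
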