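import Pool.Agent.Lib_helper71.TU.BrC

set_option autoImplicit false

/-!
# The independence condition for groups of odd order
-/

namespace Pool.Agent.TK4

open WeierstrassCurve.Affine

noncomputable section

variable {k : Type*} [Field k] [DecidableEq k] {W : WeierstrassCurve.Affine k}

omit [DecidableEq k] in
lemma absc_some {x y : k} (h : W.Nonsingular x y) : FK4.absc (Point.some x y h) = x := rfl

omit [DecidableEq k] in
lemma absc_neg (a : W.Point) : FK4.absc (-a) = FK4.absc a := by
  rcases a with _ | ⟨x, y, h⟩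
  · rfl
  · rfl

omit [DecidableEq k] in
lemma absc_eq {a b : W.Point} (ha : a ≠ 0) (hb : b ≠ 0) (h : FK4.absc a = FK4.absc b) :
    a = b ∨ a = -b := by
  rcases a with _ | ⟨x, y, h1⟩
  · exact absurd rfl ha
  rcases b with _ | ⟨x', y', h2⟩
  · exact absurd rfl hb
  have hx : x = x' := h
  subst hx
  rcases Y_eq_of_X_eq h1.1 h2.1 rfl with hy | hy
  · left
    subst hy
    rfl
  · right
    subst hy
    rfl

variable (H : AddSubgroup W.Point) [Fintype H]

/-- the abscissas of the points of `H` -/
def absF : Finset k := (Finset.univ.erase (0 : H)).image fun c : H => FK4.absc (c : W.Point)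

lemma mem_absF {x : k} : x ∈ absF H ↔ ∃ y h, Point.some x y h ∈ H := by
  unfold absF
  rw [Finset.mem_image]
  constructor
  · rintro ⟨⟨c, hc⟩, h0, hx⟩
    rcases c with _ | ⟨x', y', h'⟩
    · exact absurd rfl (Finset.ne_of_mem_erase h0)
    · have : x' = x := hx
      subst this
      exact ⟨y', h', hc⟩
  · rintro ⟨y, h, hm⟩
    refine ⟨⟨_, hm⟩, Finset.mem_erase.mpr ⟨fun h0 => ?_, Finset.mem_univ _⟩, rfl⟩
    have : Point.some x y h = 0 := congrArg Subtype.val h0
    exact Point.some_ne_zero h this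

variable {H} (hodd : ∀ a : H, a + a = 0 → a = 0)

include hodd in
lemma fiber_card {x : k} (hx : x ∈ absF H) :
    ((Finset.univ.erase (0 : H)).filter fun c : H => FK4.absc (c : W.Point) = x).card = 2 := by
  unfold absF at hx
  rw [Finset.mem_image] at hx
  obtain ⟨a, ha, hx⟩ := hx
  have ha0 : a ≠ 0 := Finset.ne_of_mem_erase ha
  have h1 : (Finset.univ.erase (0 : H)).filter (fun c : H => FK4.absc (c : W.Point) = x) =
      {a, -a} := by
    ext c
    rw [Finset.mem_filter, Finset.mem_insert, Finset.mem_singleton, Finset.mem_erase]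
    constructor
    · rintro ⟨⟨hc, -⟩, hcx⟩
      have h2 := absc_eq (a := (c : W.Point)) (b := (a : W.Point))
        (fun h => hc (Subtype.ext h)) (fun h => ha0 (Subtype.ext h)) (hcx.trans hx.symm)
      rcases h2 with h2 | h2
      · exact Or.inl (Subtype.ext h2)
      · exact Or.inr (Subtype.ext h2)
    · rintro (rfl | rfl)
      · exact ⟨⟨ha0, Finset.mem_univ _⟩, hx⟩
      · refine ⟨⟨neg_ne_zero.mpr ha0, Finset.mem_univ _⟩, ?_⟩
        rw [← hx]
        exact absc_neg (a : W.Point)
  rw [h1, Finset.card_pair]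
  intro h2
  exact ha0 (hodd a (by nth_rewrite 2 [h2]; exact add_neg_cancel a))

include hodd in
lemma prod_pairs {M : Type*} [CommMonoid M] (g : H → M) (G : k → M) (h0 : g 0 = 1)
    (hG : ∀ a : H, a ≠ 0 → g a = G (FK4.absc (a : W.Point))) :
    ∏ a, g a = ∏ x ∈ absF H, G x ^ 2 := by
  rw [← Finset.mul_prod_erase Finset.univ g (Finset.mem_univ 0), h0, one_mul,
    ← Finset.prod_fiberwise_of_maps_to (s := Finset.univ.erase (0 : H)) (t := absF H)
      (g := fun c : H => FK4.absc (c : W.Point)) (fun c hc => Finset.mem_image_of_mem _ hc)]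
  refine Finset.prod_congr rfl fun x hx => ?_
  rw [← fiber_card hodd hx]
  rw [← Finset.prod_const]
  refine Finset.prod_congr rfl fun c hc => ?_
  rw [Finset.mem_filter, Finset.mem_erase] at hc
  rw [hG c hc.1.1, hc.2]

include hodd in
lemma sum_pairs (g : H → ℤ) (G : k → ℤ) (h0 : g 0 = 0)
    (hG : ∀ a : H, a ≠ 0 → g a = G (FK4.absc (a : W.Point))) :
    ∑ a, g a = ∑ x ∈ absF H, 2 * G x := by
  rw [← Finset.add_sum_erase Finset.univ g (Finset.mem_univ 0), h0, zero_add,
    ← Finset.sum_fiberwise_of_maps_to (s := Finset.univ.erase (0 : H)) (t := absF H)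
      (g := fun c : H => FK4.absc (c : W.Point)) (fun c hc => Finset.mem_image_of_mem _ hc)]
  refine Finset.sum_congr rfl fun x hx => ?_
  have h2 : (2 : ℤ) * G x = ((Finset.univ.erase (0 : H)).filter fun c : H =>
      FK4.absc (c : W.Point) = x).card • G x := by
    rw [fiber_card hodd hx, nsmul_eq_mul]
    rfl
  rw [h2, ← Finset.sum_const]
  refine Finset.sum_congr rfl fun c hc => ?_
  rw [Finset.mem_filter, Finset.mem_erase] at hc
  rw [hG c hc.1.1, hc.2]

/-- the number `γ` as a function of the abscissa -/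
def gm (H : AddSubgroup W.Point) [Fintype H] (x : k) : k :=
  (4 * x ^ 3 + W.b₂ * x ^ 2 + 2 * W.b₄ * x + W.b₆) * ∏ z ∈ absF H \ {x}, (x - z) ^ 2

include hodd in
lemma gam_eq (a : H) (ha : a ≠ 0) :
    FK4.gam H (a : W.Point) = gm H (FK4.absc (a : W.Point)) := by
  obtain ⟨a, hm⟩ := a
  rcases a with _ | ⟨x, y, h⟩
  · exact absurd rfl ha
  have h1 : 2 * y + W.a₁ * x + W.a₃ ≠ 0 := by
    intro h1
    have h2 : -(Point.some x y h) = Point.some x y h := by
      rw [Point.neg_some]
      congr 1
      unfold negY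
      linear_combination -h1
    refine ha (hodd _ (Subtype.ext ?_))
    show Point.some x y h + Point.some x y h = 0
    nth_rewrite 2 [← h2]
    exact add_neg_cancel _
  have h2 : (2 * y + W.a₁ * x + W.a₃) ^ 2 = 4 * x ^ 3 + W.b₂ * x ^ 2 + 2 * W.b₄ * x + W.b₆ := by
    have h3 := h.1
    rw [equation_iff] at h3
    unfold WeierstrassCurve.b₂ WeierstrassCurve.b₄ WeierstrassCurve.b₆
    linear_combination 4 * h3
  have h4 : ∏ c : H, (if (c : W.Point) = 0 ∨ (c : W.Point) = .some x y h ∨
        (c : W.Point) = -.some x y h then 1 else x - FK4.absc (c : W.Point)) =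
      ∏ z ∈ absF H \ {x}, (x - z) ^ 2 := by
    rw [prod_pairs hodd _ (fun z => if z = x then 1 else x - z)]
    · rw [← Finset.prod_subset (Finset.sdiff_subset : absF H \ {x} ⊆ absF H)]
      · refine Finset.prod_congr rfl fun z hz => ?_
        rw [Finset.mem_sdiff, Finset.mem_singleton] at hz
        rw [if_neg hz.2]
      · intro z hz hz'
        rw [Finset.mem_sdiff, Finset.mem_singleton, not_and, not_not] at hz'
        rw [if_pos (hz' hz), one_pow]
    · exact if_pos (Or.inl rfl)
    · intro c hc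
      have hc' : (c : W.Point) ≠ 0 := fun h => hc (Subtype.ext h)
      by_cases hx : FK4.absc (c : W.Point) = x
      · rw [if_pos hx]
        refine if_pos (Or.inr ?_)
        exact absc_eq hc' (Point.some_ne_zero h) hx
      · rw [if_neg hx, if_neg]
        rintro (h5 | h5 | h5)
        · exact hc' h5
        · exact hx (by rw [h5]; rfl)
        · exact hx (by rw [h5]; rfl)
  show (if 2 * y + W.a₁ * x + W.a₃ = 0 then _ else _) * _ = _
  rw [if_neg h1, h2, h4]
  rfl

include hodd in
theorem siegel_of (h : SiegelIndep H) : FK4.SiegelIndep H := by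
  classical
  intro e heven h0 hsum hprod
  -- the exponents as a function of the abscissa
  set E : k → ℤ := fun x => if h : ∃ a : H, a ≠ 0 ∧ FK4.absc (a : W.Point) = x then
    e h.choose else 0 with hE
  have hEe : ∀ a : H, a ≠ 0 → e a = E (FK4.absc (a : W.Point)) := by
    intro a ha
    have hex : ∃ b : H, b ≠ 0 ∧ FK4.absc (b : W.Point) = FK4.absc (a : W.Point) := ⟨a, ha, rfl⟩
    rw [hE]
    beta_reduce
    rw [dif_pos hex]
    obtain ⟨h1, h2⟩ := hex.choose_spec
    have h3 := absc_eq (a := (hex.choose : W.Point)) (b := (a : W.Point))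
      (fun h => h1 (Subtype.ext h)) (fun h => ha (Subtype.ext h)) h2
    rcases h3 with h3 | h3
    · rw [show hex.choose = a from Subtype.ext h3]
    · rw [show hex.choose = -a from Subtype.ext h3, heven]
  have h1 : ∑ x ∈ absF H, 2 * E x = 0 := by
    rw [← hsum, sum_pairs hodd e E h0 hEe]
  have h2 : ∏ x ∈ absF H, gm H x ^ (2 * E x) = 1 := by
    rw [← hprod, prod_pairs hodd (fun a : H => FK4.gam H (a : W.Point) ^ e a)
      (fun x => gm H x ^ E x)]
    · refine Finset.prod_congr rfl fun x _ => ?_
      rw [mul_comm, zpow_mul]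
      exact zpow_ofNat _ 2
    · rw [h0, zpow_zero]
    · intro a ha
      rw [gam_eq hodd a ha, hEe a ha]
  have h3 := h.ind (absF H) (fun x => 2 * E x) (fun x => mem_absF H) h1 h2
  intro a
  by_cases ha : a = 0
  · rw [ha, h0]
  · have h4 : FK4.absc (a : W.Point) ∈ absF H :=
      Finset.mem_image_of_mem (fun c : H => FK4.absc (c : W.Point))
        (Finset.mem_erase.mpr ⟨ha, Finset.mem_univ _⟩)
    have h5 := h3 _ h4
    rw [hEe a ha]
    omega

end

end Pool.Agent.TK4
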