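import Pool.Agent.Lib_helper71.TU.BrT
import Pool.Agent.Lib_helper71.TU.BrS

set_option autoImplicit false

/-!
# The clauses of the theorem
-/

namespace Pool.Agent.TK4

open WeierstrassCurve.Affine

section Ind

variable {k : Type*} [Field k]

lemma ind1 {a : k} (h : Ind [a]) : ¬ FK4.RootOfUnity a := by
  rintro ⟨n, hn, h1⟩
  have h2 := h ![(n : ℤ)] (by simpa [Fin.prod_univ_succ] using h1) 0
  have h3 : (n : ℤ) = 0 := h2
  omega

lemma ind2 {a b : k} (h : Ind [a, b]) : FK4.Indep a b := fun m n h1 => by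
  have h2 := h ![m, n] (by simpa [Fin.prod_univ_succ] using h1)
  exact ⟨h2 0, h2 1⟩

lemma ind3 {a b c : k} (h : Ind [a, b, c]) : FK4.Indep3 a b c := fun l m n h1 => by
  have h2 := h ![l, m, n] (by simpa [Fin.prod_univ_succ, mul_assoc] using h1)
  exact ⟨h2 0, h2 1, h2 2⟩

lemma ind4 {a b c d : k} (h : Ind [a, b, c, d]) : FK4.Indep4 a b c d := fun l m n o h1 => by
  have h2 := h ![l, m, n, o] (by simpa [Fin.prod_univ_succ, mul_assoc] using h1)
  exact ⟨h2 0, h2 1, h2 2, h2 3⟩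

lemma ind5 {a b c d e : k} (h : Ind [a, b, c, d, e]) : FK4.Indep5 a b c d e :=
  fun l m n o p h1 => by
  have h2 := h ![l, m, n, o, p] (by simpa [Fin.prod_univ_succ, mul_assoc] using h1)
  exact ⟨h2 0, h2 1, h2 2, h2 3, h2 4⟩

end Ind

variable {k F : Type*} [Field k] [DecidableEq k] [CharZero k] [Field F] [Algebra k F]
  {W : WeierstrassCurve.Affine k}

lemma cyc4 {P : W.Point} {X Y : F} (hg : Generic W X Y) (hP : addOrderOf P = 4)
    (h : FK4.Four P X Y) : Cyc P X Y := by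
  obtain ⟨b, x, y, hT, -, hC, hL⟩ := h
  refine ⟨b, b, 0, [b], True, {t | IsOfFinOrder t}, ∅, hP ▸ Kub.four b, tate_of hg hT, ?_, ?_⟩
  · rintro (⟨h1, -⟩ | h1)
    · exact closedIn_bot (hC (ind1 h1))
    · exact absurd h1 (Set.notMem_empty _)
  · intro h1
    obtain ⟨n, hn, h2⟩ := isOfFinOrder_iff_pow_eq_one.mp (show IsOfFinOrder b from h1)
    obtain ⟨ξ, -, h3, h4, h5⟩ := hL ⟨n, hn, h2⟩
    exact line_of ⟨ξ, h3, h4, h5⟩

lemma cyc5 {P : W.Point} {X Y : F} (hg : Generic W X Y) (hP : addOrderOf P = 5)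
    (h : FK4.Five P X Y) : Cyc P X Y := by
  obtain ⟨b, x, y, hT, -, hC, hL⟩ := h
  refine ⟨b, b, b, [b], True, {1, -1}, ∅, hP ▸ Kub.five b, tate_of hg hT, ?_, ?_⟩
  · rintro (⟨h1, -⟩ | h1)
    · exact closedIn_bot (hC (ind1 h1))
    · exact absurd h1 (Set.notMem_empty _)
  · intro h1
    have h2 : b = 1 ∨ b = -1 := h1
    have h3 : FK4.RootOfUnity b := ⟨2, two_pos, by rcases h2 with rfl | rfl <;> norm_num⟩
    obtain ⟨ξ, ξ', -, -, h4, -, -, h5, h6⟩ := hL h3
    exact line_of ⟨ξ, h4, h5 h2, h6⟩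

lemma cyc6 {P : W.Point} {X Y : F} (hg : Generic W X Y) (hP : addOrderOf P = 6)
    (h : FK4.Six P X Y) : Cyc P X Y := by
  obtain ⟨c, x, y, hT, hC, hL⟩ := h
  refine ⟨c, _, _, _, _, _, _, hP ▸ Kub.six c, tate_of hg hT, ?_, ?_⟩
  · rintro (⟨h1, h2, h3, h4⟩ | h1)
    · exact closedIn_bot (hC (ind2 h1) h2 h3 h4).2
    · exact absurd h1 (Set.notMem_empty _)
  · intro h1
    refine line_of (hL ?_)
    simp only [Set.mem_insert_iff, Set.mem_singleton_iff] at h1
    rcases h1 with h1 | h1 | h1 | h1 | h1 | h1 <;> subst h1 <;> norm_num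

lemma cyc7 {P : W.Point} {X Y : F} (hg : Generic W X Y) (hP : addOrderOf P = 7)
    (h : FK4.Seven P X Y) : Cyc P X Y := by
  obtain ⟨d, x, y, hT, hC, hL⟩ := h
  refine ⟨d, _, _, _, _, _, _, hP ▸ Kub.seven d, tate_of hg hT, ?_, ?_⟩
  · rintro (⟨h1, -⟩ | h1)
    · exact closedIn_bot (hC (ind2 h1)).2
    · exact absurd h1 (Set.notMem_empty _)
  · intro h1
    refine line_of (hL ?_)
    simp only [Set.mem_insert_iff, Set.mem_singleton_iff] at h1
    rcases h1 with h1 | h1 | h1 <;> subst h1 <;> norm_num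

lemma cyc8 {P : W.Point} {X Y : F} (hg : Generic W X Y) (hP : addOrderOf P = 8)
    (h : FK4.Eight P X Y) : Cyc P X Y := by
  obtain ⟨d, x, y, -, hT, hC, hL⟩ := h
  refine ⟨d, _, _, _, _, _, _, hP ▸ Kub.eight d, tate_of hg hT, ?_, ?_⟩
  · rintro (⟨h1, -⟩ | h1)
    · exact closedIn_bot (hC (ind3 h1)).2
    · exact absurd h1 (Set.notMem_empty _)
  · intro h1
    refine line_of (hL ?_)
    simp only [Set.mem_insert_iff, Set.mem_singleton_iff] at h1
    rcases h1 with h1 | h1 | h1 | h1 | h1 | h1 | h1 | h1 <;> subst h1 <;> norm_num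

lemma cyc9 {P : W.Point} {X Y : F} (hg : Generic W X Y) (hP : addOrderOf P = 9)
    (h : FK4.Nine P X Y) : Cyc P X Y := by
  obtain ⟨d, x, y, hT, hC, hL⟩ := h
  refine ⟨d, _, _, _, _, _, _, hP ▸ Kub.nine d, tate_of hg hT, ?_, ?_⟩
  · rintro (⟨h1, h2, h3⟩ | h1)
    · exact closedIn_bot (hC (ind3 h1) h2 h3).2
    · exact absurd h1 (Set.notMem_empty _)
  · intro h1
    refine line_of (hL ?_)
    simp only [Set.mem_insert_iff, Set.mem_singleton_iff] at h1
    rcases h1 with h1 | h1 | h1 <;> subst h1 <;> norm_num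

lemma cyc10 {P : W.Point} {X Y : F} (hg : Generic W X Y) (hP : addOrderOf P = 10)
    (h : FK4.Ten P X Y) : Cyc P X Y := by
  obtain ⟨t, b, c, e, x, y, hc, hb, -, hT, hC, hL, hE⟩ := h
  have hw : t - (t - 1) ^ 2 = -(t ^ 2 - 3 * t + 1) := by ring
  have hc' : c = -(t * (t - 1) * (2 * t - 1)) / (t ^ 2 - 3 * t + 1) := by
    rw [hc, hw, div_neg, neg_div]
  have hb' : b = -t ^ 2 * c / (t ^ 2 - 3 * t + 1) := by
    rw [hb, hw, div_neg, neg_mul, neg_mul, neg_div]
    ring
  subst hb'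
  refine ⟨t, _, _, _, _, _, _, hP ▸ Kub.ten t c _ rfl hc', tate_of hg hT, ?_, ?_⟩
  · rintro (⟨h1, -⟩ | h1)
    · exact closedIn_bot (hC (ind4 h1)).2
    · refine closedIn_bot (hE ?_)
      simp only [Set.mem_insert_iff, Set.mem_singleton_iff] at h1
      clear hc hb hT hC hL hE hw hc'
      rcases h1 with h1 | h1 | h1 | h1 | h1 | h1 | h1 | h1 <;> subst h1 <;> norm_num
  · intro h1
    refine line_of (hL ?_)
    simp only [Set.mem_insert_iff, Set.mem_singleton_iff] at h1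
    clear hc hb hT hC hL hE hw hc'
    rcases h1 with h1 | h1 | h1 | h1 <;> subst h1 <;> norm_num

lemma cyc12 {P : W.Point} {X Y : F} (hg : Generic W X Y) (hP : addOrderOf P = 12)
    (h : FK4.Twelve P X Y) : Cyc P X Y := by
  obtain ⟨t, b, c, x, y, hc, hb, hT, hC, hL, hE⟩ := h
  subst hb
  refine ⟨t, _, _, _, _, _, _, hP ▸ Kub.twelve t c _ _ _ rfl rfl rfl hc, tate_of hg hT, ?_, ?_⟩
  · rintro (⟨h1, h2⟩ | h1)
    · refine closedIn_bot (hC (ind5 h1) fun a ha => h2 a ?_).2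
      rcases ha with ha | ha
      · exact Or.inl ha
      · right
        rw [ha, div_pow, mul_pow, ← neg_sub t 1, neg_sq]
    · refine closedIn_bot (hE ?_)
      simp only [Set.mem_insert_iff, Set.mem_singleton_iff] at h1
      clear hc hT hC hL hE
      rcases h1 with h1 | h1 | h1 | h1 | h1 | h1 <;> subst h1 <;> norm_num
  · intro h1
    refine line_of (hL ?_)
    simp only [Set.mem_insert_iff, Set.mem_singleton_iff] at h1
    clear hc hT hC hL hE
    rcases h1 with h1 | h1 <;> subst h1 <;> norm_num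

omit [CharZero k] in
lemma galTrans_of {p : ℕ} (h : GalTrans W p) : FK4.GalTrans W p := by
  intro x y x' y' h1 h2 h3 h4
  obtain ⟨s, hs, hW, hx, hy⟩ := h x y x' y' h1 h2 h3 h4
  refine ⟨RingEquiv.ofBijective s hs, ?_, ?_, ?_, ?_, ?_, hx, hy⟩
  · exact congrArg WeierstrassCurve.a₁ hW
  · exact congrArg WeierstrassCurve.a₂ hW
  · exact congrArg WeierstrassCurve.a₃ hW
  · exact congrArg WeierstrassCurve.a₄ hW
  · exact congrArg WeierstrassCurve.a₆ hW

lemma general_of {H : AddSubgroup W.Point} [Fintype H] {X Y : F} (h1 : FK4.General H X Y)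
    (h2 : FK4.SmallGroup H X Y) : General H X Y := by
  refine ⟨fun h => closedIn_bot (h2 ?_), fun p hp hp5 hc h => closedIn_bot ?_⟩
  · rw [Nat.card_eq_fintype_card] at h
    rcases h with h | ⟨h, h'⟩
    · exact Or.inl h
    · exact Or.inr ⟨h, fun a => Subtype.ext (h' a a.2)⟩
  · have hc' : Fintype.card H = p := by rw [← Nat.card_eq_fintype_card, hc]
    obtain ⟨h3, h4⟩ := h1
    have hprime : (Fintype.card H).Prime := hc'.symm ▸ hp
    have h5 : 5 ≤ Fintype.card H := hc'.symm ▸ hp5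
    obtain ⟨h6, h7⟩ := h4 hprime h5
    have h8 : FK4.SiegelIndep H := by
      rcases h with h | h | ⟨⟨O, hO, hO'⟩, h', h''⟩
      · refine siegel_of (fun a ha => ?_) h
        have e1 : addOrderOf a ∣ 2 := addOrderOf_dvd_of_nsmul_eq_zero (by rw [two_nsmul, ha])
        have e2 : addOrderOf a ∣ p := hc ▸ addOrderOf_dvd_natCard a
        have e3 : Nat.Coprime 2 p := by
          refine (Nat.coprime_primes Nat.prime_two hp).mpr ?_
          omega
        have e4 : addOrderOf a ∣ 1 := by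
          rw [← e3]
          exact Nat.dvd_gcd e1 e2
        exact AddMonoid.addOrderOf_eq_one_iff.mp (Nat.dvd_one.mp e4)
      · exact h6 h
      · refine h7 ⟨O, ?_, hO'⟩ ?_ ?_
        · rw [hc']; exact hO
        · rw [hc']; exact h'
        · rw [hc']; exact galTrans_of h''
    exact ((h3 h8).2 hprime h5).2

lemma rational_of.{v} (h : FK4.Rational.{v}) : Rational.{v} := by
  intro F _ _ W X Y hg P h1 h2
  rcases h F W X Y ((generic_iff W X Y).mp hg) P h1 h2 with h3 | h3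
  · exact Or.inl (closedIn_bot h3)
  · exact Or.inr (line_of h3)

/-- The theorem with the definitions of `Sym` and `Cur` follows from the theorem with the
definitions of `FK4`. -/
theorem bridge.{u, v} {k : Type u} {F : Type v} [Field k] [DecidableEq k] [CharZero k] [Field F]
    [Algebra k F] (W : WeierstrassCurve.Affine k) (X Y : F) (hg : Generic W X Y)
    (h : FK4.Rational.{v} ∧
      (∀ (H : AddSubgroup W.Point) [Fintype H], FK4.General H X Y ∧ FK4.SmallGroup H X Y) ∧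
      (∀ P : W.Point,
        (addOrderOf P = 4 → FK4.Four P X Y) ∧ (addOrderOf P = 5 → FK4.Five P X Y) ∧
          (addOrderOf P = 6 → FK4.Six P X Y) ∧ (addOrderOf P = 7 → FK4.Seven P X Y) ∧
          (addOrderOf P = 8 → FK4.Eight P X Y) ∧ (addOrderOf P = 9 → FK4.Nine P X Y) ∧
          (addOrderOf P = 10 → FK4.Ten P X Y) ∧ (addOrderOf P = 12 → FK4.Twelve P X Y)) ∧
      FK4.OverQ) :
    Rational.{v} ∧ (∀ H : AddSubgroup W.Point, (H : Set W.Point).Finite → General H X Y) ∧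
    ∀ P : W.Point, addOrderOf P ∈ ({4, 5, 6, 7, 8, 9, 10, 12} : Set ℕ) → Cyc P X Y := by
  obtain ⟨h1, h2, h3, -⟩ := h
  refine ⟨rational_of h1, fun H hH => ?_, fun P hP => ?_⟩
  · have : Finite H := hH
    have : Fintype H := Fintype.ofFinite H
    exact general_of (h2 H).1 (h2 H).2
  · obtain ⟨g4, g5, g6, g7, g8, g9, g10, g12⟩ := h3 P
    simp only [Set.mem_insert_iff, Set.mem_singleton_iff] at hP
    rcases hP with hP | hP | hP | hP | hP | hP | hP | hP
    · exact cyc4 hg hP (g4 hP)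
    · exact cyc5 hg hP (g5 hP)
    · exact cyc6 hg hP (g6 hP)
    · exact cyc7 hg hP (g7 hP)
    · exact cyc8 hg hP (g8 hP)
    · exact cyc9 hg hP (g9 hP)
    · exact cyc10 hg hP (g10 hP)
    · exact cyc12 hg hP (g12 hP)

end Pool.Agent.TK4
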