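import Pool.Agent.Lib_helper71.TU.Sym
import Pool.Agent.Lib_helper2.K4.Bridge
import Pool.Agent.Lib_helper2.K4.DefsR
import Pool.Agent.Lib_helper2.K4C.Res

set_option autoImplicit false

/-!
# Formal sums of symbols and `H(F)`
-/

open scoped TensorProduct WithZero

namespace Pool.Agent.TK4

noncomputable section

variable {F : Type*} [Field F]

/-- the class of a formal sum in `H(F)` -/
def phiK (F : Type*) [Field F] : (F × F →₀ ℚ) →ₗ[ℚ] K4M.HK F :=
  Finsupp.linearCombination ℚ fun p => K4M.hkL F (K4M.sy p.1) (K4M.lg p.2)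

lemma phiK_sym (f g : F) : phiK F (sym f g) = K4M.hkL F (K4M.sy f) (K4M.lg g) := by
  unfold phiK sym
  rw [Finsupp.linearCombination_single, one_smul]

lemma phiK_map (r : F →₀ ℚ) (g : F) : phiK F (r.mapDomain fun x => (x, g)) =
    K4M.hkL F (Submodule.Quotient.mk r) (K4M.lg g) := by
  induction r using Finsupp.induction_linear with
  | zero => rw [Finsupp.mapDomain_zero, map_zero, Submodule.Quotient.mk_zero, map_zero,
      LinearMap.zero_apply]
  | add u v hu hv => rw [Finsupp.mapDomain_add, map_add, hu, hv, Submodule.Quotient.mk_add,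
      map_add, LinearMap.add_apply]
  | single x q =>
    rw [Finsupp.mapDomain_single]
    unfold phiK
    rw [Finsupp.linearCombination_single]
    have : (Finsupp.single x q : F →₀ ℚ) = q • K4M.bs x := by
      unfold K4M.bs
      rw [Finsupp.smul_single, smul_eq_mul, mul_one]
    rw [this, Submodule.Quotient.mk_smul, map_smul, LinearMap.smul_apply]
    rfl

lemma rel_b2 {r : F →₀ ℚ} (hr : r ∈ rel2 F) : (Submodule.Quotient.mk r : K4M.B2 F) = 0 := by
  rw [Submodule.Quotient.mk_eq_zero]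
  exact Submodule.subset_span hr

lemma phiK_rel {z : F × F →₀ ℚ} (hz : z ∈ Rel F) : phiK F z = 0 := by
  rcases hz with ⟨r, hr, g, rfl⟩ | ⟨f, g, h, hg, hh, rfl⟩ | ⟨f, rfl | rfl⟩
  · rw [phiK_map, rel_b2 hr, map_zero, LinearMap.zero_apply]
  · rw [map_sub, map_sub, phiK_sym, phiK_sym, phiK_sym, K4M.lg_mul hg hh, map_add]
    abel
  · classical
    rw [phiK_sym, K4M.hkL_self]
  · rw [phiK_sym, K4M.lg_zero, map_zero]

/-- formal sums modulo the relations -/
abbrev Q (F : Type*) [Field F] : Type _ := (F × F →₀ ℚ) ⧸ Submodule.span ℚ (Rel F)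

lemma mk_rel {z : F × F →₀ ℚ} (hz : z ∈ Rel F) : (Submodule.Quotient.mk z : Q F) = 0 := by
  rw [Submodule.Quotient.mk_eq_zero]
  exact Submodule.subset_span hz

/-- `{f} ↦ (f, g)` -/
def beta (g : F) : K4M.B2 F →ₗ[ℚ] Q F :=
  Submodule.liftQ _ ((Submodule.mkQ _).comp (Finsupp.lmapDomain ℚ ℚ fun x : F => (x, g))) (by
    rw [Submodule.span_le]
    intro r hr
    rw [SetLike.mem_coe, LinearMap.mem_ker]
    exact mk_rel (Or.inl ⟨r, hr, g, rfl⟩))

lemma beta_sy (f g : F) : beta g (K4M.sy f) = Submodule.Quotient.mk (sym f g) := by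
  unfold beta K4M.sy
  rw [Submodule.liftQ_apply, LinearMap.comp_apply, Submodule.mkQ_apply]
  congr 1
  exact Finsupp.mapDomain_single

lemma beta_mul {g h : F} (hg : g ≠ 0) (hh : h ≠ 0) : beta (g * h) = beta g + beta h := by
  refine K4CC.b2_ext fun f => ?_
  rw [LinearMap.add_apply, beta_sy, beta_sy, beta_sy]
  have h1 := mk_rel (F := F) (Or.inr (Or.inl ⟨f, g, h, hg, hh, rfl⟩))
  rw [Submodule.Quotient.mk_sub, Submodule.Quotient.mk_sub, sub_sub, sub_eq_zero] at h1
  exact h1

lemma beta_zero : beta (0 : F) = 0 := by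
  refine K4CC.b2_ext fun f => ?_
  rw [LinearMap.zero_apply, beta_sy]
  exact mk_rel (Or.inr (Or.inr ⟨f, Or.inr rfl⟩))

/-- `[g] ↦ ({f} ↦ (f, g))` on `F^*` -/
def mu : Additive Fˣ →+ (K4M.B2 F →ₗ[ℚ] Q F) where
  toFun u := beta (u.toMul : F)
  map_zero' := by
    have h := beta_mul (one_ne_zero (α := F)) (one_ne_zero (α := F))
    rw [mul_one] at h
    have h1 : beta (1 : F) = 0 := by
      have h2 : beta (1 : F) + 0 = beta (1 : F) + beta (1 : F) := by rw [add_zero]; exact h
      exact (add_left_cancel h2).symm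
    exact h1
  map_add' u v := by
    rw [toMul_add, Units.val_mul]
    exact beta_mul (Units.ne_zero _) (Units.ne_zero _)

/-- `[g] ↦ ({f} ↦ (f, g))` -/
def gamma : K4M.FT F →ₗ[ℚ] (K4M.B2 F →ₗ[ℚ] Q F) :=
  (mu (F := F)).toIntLinearMap.liftBaseChange ℚ

lemma gamma_lg (g : F) : gamma (K4M.lg g) = beta g := by
  rcases eq_or_ne g 0 with rfl | hg
  · rw [K4M.lg_zero, map_zero, beta_zero]
  · rw [K4M.lg_of_ne hg]
    unfold gamma
    rw [LinearMap.liftBaseChange_tmul, one_smul]
    rfl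

/-- the inverse of `phiK` -/
def psi : K4M.HK F →ₗ[ℚ] Q F :=
  Submodule.liftQ _ (TensorProduct.lift (gamma (F := F)).flip) (by
    rw [Submodule.span_le]
    rintro z ⟨f, hf0, hf1, rfl⟩
    rw [SetLike.mem_coe, LinearMap.mem_ker, TensorProduct.lift.tmul, LinearMap.flip_apply,
      gamma_lg, beta_sy]
    exact mk_rel (Or.inr (Or.inr ⟨f, Or.inl rfl⟩)))

lemma psi_phiK (z : F × F →₀ ℚ) : psi (phiK F z) = Submodule.Quotient.mk z := by
  induction z using Finsupp.induction_linear with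
  | zero => rw [map_zero, map_zero, Submodule.Quotient.mk_zero]
  | add u v hu hv => rw [map_add, map_add, hu, hv, Submodule.Quotient.mk_add]
  | single p q =>
    have : (Finsupp.single p q : F × F →₀ ℚ) = q • sym p.1 p.2 := by
      unfold sym
      rw [Finsupp.smul_single, smul_eq_mul, mul_one]
    rw [this, map_smul, map_smul, phiK_sym, Submodule.Quotient.mk_smul]
    congr 1
    show psi (Submodule.Quotient.mk (K4M.sy p.1 ⊗ₜ[ℚ] K4M.lg p.2)) = _
    unfold psi
    rw [Submodule.liftQ_apply, TensorProduct.lift.tmul, LinearMap.flip_apply, gamma_lg, beta_sy]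

lemma phiK_eq_zero {z : F × F →₀ ℚ} (h : phiK F z = 0) : z ∈ Submodule.span ℚ (Rel F) := by
  have := psi_phiK z
  rw [h, map_zero] at this
  exact (Submodule.Quotient.mk_eq_zero _).mp this.symm

/-! ### with the sealed definitions -/

/-- the class of a formal sum in `H(F)` -/
def phi (F : Type*) [Field F] : (F × F →₀ ℚ) →ₗ[ℚ] MK4.HK F := phiK F

lemma phi_sym (f g : F) : phi F (sym f g) = MK4.hk (MK4.sy f) (MK4.lg g) := phiK_sym f g

lemma phi_rel {z : F × F →₀ ℚ} (hz : z ∈ Rel F) : phi F z = 0 := phiK_rel hz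

lemma phi_eq_zero {z : F × F →₀ ℚ} (h : phi F z = 0) : z ∈ Submodule.span ℚ (Rel F) :=
  phiK_eq_zero h

omit [Field F] in
lemma single_eq (p : F × F) (q : ℚ) : (Finsupp.single p q : F × F →₀ ℚ) = q • sym p.1 p.2 := by
  unfold sym
  rw [Finsupp.smul_single, smul_eq_mul, mul_one]

lemma phi_eq_sum (z : F × F →₀ ℚ) :
    phi F z = z.sum fun p n => n • MK4.hk (MK4.sy p.1) (MK4.lg p.2) := by
  induction z using Finsupp.induction_linear with
  | zero => rw [map_zero, Finsupp.sum_zero_index]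
  | add u v hu hv =>
    rw [map_add, hu, hv, Finsupp.sum_add_index']
    · intro p; rw [zero_smul]
    · intro p a b; rw [add_smul]
  | single p q =>
    rw [single_eq, map_smul, phi_sym, ← single_eq, Finsupp.sum_single_index]
    rw [zero_smul]

/-- membership in the span of the relations and `S` -/
lemma mem_span_iff (S : Set (F × F →₀ ℚ)) (z : F × F →₀ ℚ) :
    z ∈ Submodule.span ℚ (Rel F ∪ S) ↔ phi F z ∈ Submodule.span ℚ (phi F '' S) := by
  constructor
  · intro h
    have h1 : phi F z ∈ (Submodule.span ℚ (Rel F ∪ S)).map (phi F) := ⟨z, h, rfl⟩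
    rw [Submodule.map_span, Set.image_union] at h1
    refine Submodule.span_le.mpr ?_ h1
    rintro w (⟨r, hr, rfl⟩ | hw)
    · rw [phi_rel hr]; exact Submodule.zero_mem _
    · exact Submodule.subset_span hw
  · intro h
    rw [← Submodule.map_span] at h
    obtain ⟨w, hw, h1⟩ := h
    have h2 : phi F (z - w) = 0 := by rw [map_sub, h1, sub_self]
    have h3 := phi_eq_zero h2
    have h4 : z = (z - w) + w := (sub_add_cancel z w).symm
    rw [h4]
    exact Submodule.add_mem _ (Submodule.span_mono Set.subset_union_left h3)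
      (Submodule.span_mono Set.subset_union_right hw)

/-- the image of the symbols -/
lemma image_sym (A B : Set F) : phi F '' Set.image2 sym A B =
    {z | ∃ a ∈ A, ∃ b ∈ B, z = MK4.hk (MK4.sy a) (MK4.lg b)} := by
  ext z
  constructor
  · rintro ⟨w, ⟨a, ha, b, hb, rfl⟩, rfl⟩
    exact ⟨a, ha, b, hb, phi_sym a b⟩
  · rintro ⟨a, ha, b, hb, rfl⟩
    exact ⟨_, ⟨a, ha, b, hb, rfl⟩, phi_sym a b⟩

lemma mem_Sp (A B : Set F) (ξ z : F × F →₀ ℚ) : z ∈ Sp A B ξ ↔ phi F z ∈ Submodule.span ℚ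
    (insert (phi F ξ) {z | ∃ a ∈ A, ∃ b ∈ B, z = MK4.hk (MK4.sy a) (MK4.lg b)}) := by
  unfold Sp
  have : insert ξ (Rel F ∪ Set.image2 sym A B) = Rel F ∪ insert ξ (Set.image2 sym A B) := by
    rw [Set.union_insert]
  rw [this, mem_span_iff, Set.image_insert_eq, image_sym]

lemma mem_Sp_zero (A B : Set F) (z : F × F →₀ ℚ) : z ∈ Sp A B 0 ↔ phi F z ∈ Submodule.span ℚ
    {z | ∃ a ∈ A, ∃ b ∈ B, z = MK4.hk (MK4.sy a) (MK4.lg b)} := by
  rw [mem_Sp, map_zero, Submodule.span_insert_zero]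

end

end Pool.Agent.TK4
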