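import Pool.Agent.Lib_helper71.TU.BrR

set_option autoImplicit false

/-!
# Residues of formal sums and of elements of `H(F)`
-/

open scoped TensorProduct WithZero

namespace Pool.Agent.TK4

noncomputable section

variable {F : Type*} [Field F]

/-- the class of a formal sum of elements in `B₂` -/
def mkB (K : Type*) [Field K] : (K →₀ ℚ) →ₗ[ℚ] MK4.B2 K := Submodule.mkQ (Submodule.span ℚ (K4M.blochRel K))

lemma mkB_single {K : Type*} [Field K] (x : K) : mkB K (Finsupp.single x 1) = MK4.sy x := rfl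

lemma mkB_eq_zero {K : Type*} [Field K] (z : K →₀ ℚ) :
    mkB K z = 0 ↔ z ∈ Submodule.span ℚ (rel2 K) :=
  Submodule.Quotient.mk_eq_zero (Submodule.span ℚ (K4M.blochRel K))

/-- the residue formula -/
lemma sum_res (v : Valuation F ℤᵐ⁰) (r : F → IsLocalRing.ResidueField v.valuationSubring →₀ ℚ)
    (h1 : ∀ f h, r f = Finsupp.single (IsLocalRing.residue v.valuationSubring ⟨f, h⟩) 1)
    (h2 : ∀ f ∉ v.valuationSubring, r f = 0)
    (R : MK4.HK F →ₗ[ℚ] MK4.B2 (MK4.RF v))
    (hR : ∀ x u : F, u ≠ 0 → R (MK4.hk (MK4.sy x) (MK4.lg u)) =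
      ((WithZero.log (v u) : ℤ) : ℚ) • MK4.sv v x) (z : F × F →₀ ℚ) :
    R (phi F z) = mkB (MK4.RF v) (z.sum fun p n => (n * WithZero.log (v p.2)) • r p.1) := by
  have h3 : ∀ f, mkB (MK4.RF v) (r f) = MK4.sv v f := by
    intro f
    unfold MK4.sv
    by_cases hf : f ∈ v.valuationSubring
    · rw [dif_pos hf, h1 f hf]
      exact mkB_single _
    · rw [dif_neg hf, h2 f hf]
      exact map_zero (mkB (MK4.RF v))
  have h4 : ∀ f g, R (MK4.hk (MK4.sy f) (MK4.lg g)) =
      ((WithZero.log (v g) : ℤ) : ℚ) • MK4.sv v f := by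
    intro f g
    rcases eq_or_ne g 0 with rfl | hg
    · have e : MK4.hk (MK4.sy f) (MK4.lg (0 : F)) = 0 := by
        rw [← phi_sym]
        exact phi_rel (Or.inr (Or.inr ⟨f, Or.inr rfl⟩))
      rw [e, map_zero, map_zero, WithZero.log_zero, Int.cast_zero, zero_smul]
    · exact hR f g hg
  induction z using Finsupp.induction_linear with
  | zero => rw [map_zero, map_zero, Finsupp.sum_zero_index]; exact (map_zero (mkB _)).symm
  | add a b ha hb =>
    rw [map_add, map_add, ha, hb, Finsupp.sum_add_index', map_add]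
    · intro p; rw [zero_mul, zero_smul]
    · intro p a b; rw [add_mul, add_smul]
  | single p q =>
    rw [Finsupp.sum_single_index (by rw [zero_mul, zero_smul]), single_eq, map_smul, map_smul,
      phi_sym, h4, map_smul]
    rw [smul_smul]
    congr 1
    exact (h3 p.1).symm

lemma res_old {v : Valuation F ℤᵐ⁰} {z : F × F →₀ ℚ} (h : MK4.NoRes v (phi F z))
    (r : F → IsLocalRing.ResidueField v.valuationSubring →₀ ℚ)
    (h1 : ∀ f h, r f = Finsupp.single (IsLocalRing.residue v.valuationSubring ⟨f, h⟩) 1)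
    (h2 : ∀ f ∉ v.valuationSubring, r f = 0) :
    z.sum (fun p n => (n * WithZero.log (v p.2)) • r p.1) ∈
      Submodule.span ℚ (rel2 (IsLocalRing.ResidueField v.valuationSubring)) := by
  obtain ⟨R, hR, hz⟩ := h
  rw [sum_res v r h1 h2 R hR, mkB_eq_zero] at hz
  exact hz

/-- the residue map has the property of the definition -/
lemma resL_prop (v : Valuation F ℤᵐ⁰) [Infinite (K4R.rf v)] (x u : F) (hu : u ≠ 0) :
    (K4R.resL v (K4M.hk (K4M.sy x) (K4M.lg u)) : K4M.B2 (K4R.rf v)) =
        ((WithZero.log (v u) : ℤ) : ℚ) • K4R.sp v x := by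
  rw [K4R.resL_hk, K4R.valL_lg v hu, K4R.spL_sy]

open Classical in
/-- the symbol of the residue class -/
def redF (v : Valuation F ℤᵐ⁰) (f : F) : IsLocalRing.ResidueField v.valuationSubring →₀ ℚ :=
  if h : f ∈ v.valuationSubring then
    Finsupp.single (IsLocalRing.residue v.valuationSubring ⟨f, h⟩) 1 else 0

variable (k : Type*) [Field k] [Algebra k F]

theorem noRes_iff [CharZero k] (z : F × F →₀ ℚ) : NoRes k z ↔
    ∀ v : Valuation F ℤᵐ⁰, (∀ c : k, c ≠ 0 → v (algebraMap k F c) = 1) →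
      MK4.NoRes v (phi F z) := by
  constructor
  · intro h v hv
    have hi : Infinite (K4R.rf v) := K4CC.infinite_rf v hv
    have h1 : ∀ f h, redF v f =
        Finsupp.single (IsLocalRing.residue v.valuationSubring ⟨f, h⟩) 1 := fun f h => dif_pos h
    have h2 : ∀ f ∉ v.valuationSubring, redF v f = 0 := fun f h => dif_neg h
    have h3 := h.res v v.valuationSubring (redF v) hv (fun f => Iff.rfl) h1 h2
    have hR : ∀ x u : F, u ≠ 0 → (K4R.resL v : MK4.HK F →ₗ[ℚ] MK4.B2 (MK4.RF v))
        (MK4.hk (MK4.sy x) (MK4.lg u)) = ((WithZero.log (v u) : ℤ) : ℚ) • MK4.sv v x :=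
      fun x u hu => resL_prop v x u hu
    refine ⟨K4R.resL v, hR, ?_⟩
    rw [sum_res v (redF v) h1 h2 _ hR]
    exact (mkB_eq_zero _).mpr h3
  · intro h
    refine ⟨fun v O r hv hO h1 h2 => ?_⟩
    obtain rfl : O = v.valuationSubring := by
      ext f
      rw [hO f]
      rfl
    exact res_old (h v hv) r h1 h2

end

end Pool.Agent.TK4
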