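import Pool.Agent.Lib_helper71.TU.BrK

set_option autoImplicit false

/-!
# Closed formal sums and closed elements of `H(F)`
-/

open scoped TensorProduct WithZero

namespace Pool.Agent.TK4

noncomputable section

variable {F : Type*} [Field F]

lemma ft_ext {M : Type*} [AddCommGroup M] [Module ℚ M] {E E' : K4M.FT F →ₗ[ℚ] M}
    (h : ∀ g : F, E (K4M.lg g) = E' (K4M.lg g)) : E = E' := by
  refine LinearMap.ext fun w => ?_
  induction w using TensorProduct.induction_on with
  | zero => rw [map_zero, map_zero]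
  | add x y hx hy => rw [map_add, map_add, hx, hy]
  | tmul q u =>
    have h1 : (q ⊗ₜ[ℤ] u : K4M.FT F) = q • K4M.lg (u.toMul : F) := by
      rw [K4M.lg_of_ne (Units.ne_zero _), TensorProduct.smul_tmul', smul_eq_mul, mul_one]
      congr 1
      exact congrArg Additive.ofMul (Units.ext rfl)
    rw [h1, map_smul, map_smul, h]

/-- the formula for the differential -/
lemma dH_phiK (z : F × F →₀ ℚ) : K4M.dH F (phiK F z) = z.sum fun p n =>
    n • (ExteriorAlgebra.ι ℚ (K4M.lg (1 - p.1)) * ExteriorAlgebra.ι ℚ (K4M.lg p.1) *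
      ExteriorAlgebra.ι ℚ (K4M.lg p.2)) := by
  induction z using Finsupp.induction_linear with
  | zero => rw [map_zero, map_zero, Finsupp.sum_zero_index]
  | add u v hu hv =>
    rw [map_add, map_add, hu, hv, Finsupp.sum_add_index']
    · intro p; rw [zero_smul]
    · intro p a b; rw [add_smul]
  | single p q =>
    classical
    rw [Finsupp.sum_single_index (by rw [zero_smul]), single_eq, map_smul, map_smul, phiK_sym,
      K4M.hkL_apply, K4M.dH_hk, K4M.de_sy]
    rfl

section Alt

variable {A : F → F → F → ℚ}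

lemma Alt.swap12 (hA : Alt A) (a b c : F) : A a b c = -A b a c := (hA a b c 0).1

lemma Alt.swap23 (hA : Alt A) (a b c : F) : A a b c = -A a c b := (hA a b c 0).2.1

lemma Alt.zero1 (hA : Alt A) (b c : F) : A 0 b c = 0 := (hA 0 b c 0).2.2.1

lemma Alt.zero2 (hA : Alt A) (b c : F) : A b 0 c = 0 := by rw [hA.swap12, hA.zero1, neg_zero]

lemma Alt.zero3 (hA : Alt A) (b c : F) : A b c 0 = 0 := by rw [hA.swap23, hA.zero2, neg_zero]

lemma Alt.mul1 (hA : Alt A) {a b : F} (c d : F) (ha : a ≠ 0) (hb : b ≠ 0) :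
    A (a * b) c d = A a c d + A b c d := (hA a b c d).2.2.2 ha hb

lemma Alt.mul2 (hA : Alt A) {a b : F} (c d : F) (ha : a ≠ 0) (hb : b ≠ 0) :
    A c (a * b) d = A c a d + A c b d := by
  rw [hA.swap12, hA.mul1 c d ha hb, hA.swap12 a, hA.swap12 b]; ring

lemma Alt.mul3 (hA : Alt A) {a b : F} (c d : F) (ha : a ≠ 0) (hb : b ≠ 0) :
    A c d (a * b) = A c d a + A c d b := by
  rw [hA.swap23, hA.mul2 c d ha hb, hA.swap23 c a, hA.swap23 c b]; ring

lemma add_one_eq {M : Type*} [AddCommGroup M] {x : M} (h : x = x + x) : x = 0 := by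
  have : x + 0 = x + x := by rw [add_zero]; exact h
  exact (add_left_cancel this).symm

/-- the third variable -/
def t1 (hA : Alt A) (a b : F) : K4M.FT F →ₗ[ℚ] ℚ :=
  (AddMonoidHom.toIntLinearMap
    { toFun := fun c : Additive Fˣ => A a b (c.toMul : F)
      map_zero' := add_one_eq (by
        have := hA.mul3 a b (one_ne_zero (α := F)) (one_ne_zero (α := F))
        rw [mul_one] at this
        exact this)
      map_add' := fun u v => hA.mul3 a b (Units.ne_zero _) (Units.ne_zero _) }).liftBaseChange ℚ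

lemma t1_lg (hA : Alt A) (a b c : F) : t1 hA a b (K4M.lg c) = A a b c := by
  rcases eq_or_ne c 0 with rfl | hc
  · rw [K4M.lg_zero, map_zero, hA.zero3]
  · rw [K4M.lg_of_ne hc]
    unfold t1
    rw [LinearMap.liftBaseChange_tmul, one_smul]
    rfl

/-- the second and third variable -/
def t2 (hA : Alt A) (a : F) : K4M.FT F →ₗ[ℚ] K4M.FT F →ₗ[ℚ] ℚ :=
  (AddMonoidHom.toIntLinearMap
    { toFun := fun b : Additive Fˣ => t1 hA a (b.toMul : F)
      map_zero' := ft_ext fun c => by
        rw [LinearMap.zero_apply, t1_lg]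
        refine add_one_eq ?_
        have := hA.mul2 a c (one_ne_zero (α := F)) (one_ne_zero (α := F))
        rw [mul_one] at this
        exact this
      map_add' := fun u v => ft_ext fun c => by
        rw [LinearMap.add_apply, t1_lg, t1_lg, t1_lg]
        exact hA.mul2 a c (Units.ne_zero _) (Units.ne_zero _) }).liftBaseChange ℚ

lemma t2_lg (hA : Alt A) (a b c : F) : t2 hA a (K4M.lg b) (K4M.lg c) = A a b c := by
  rcases eq_or_ne b 0 with rfl | hb
  · rw [K4M.lg_zero, map_zero, LinearMap.zero_apply, hA.zero2]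
  · rw [K4M.lg_of_ne hb]
    unfold t2
    rw [LinearMap.liftBaseChange_tmul, one_smul]
    exact t1_lg hA a b c

/-- the trilinear function -/
def t3 (hA : Alt A) : K4M.FT F →ₗ[ℚ] K4M.FT F →ₗ[ℚ] K4M.FT F →ₗ[ℚ] ℚ :=
  (AddMonoidHom.toIntLinearMap
    { toFun := fun a : Additive Fˣ => t2 hA (a.toMul : F)
      map_zero' := ft_ext fun b => ft_ext fun c => by
        rw [LinearMap.zero_apply, LinearMap.zero_apply, t2_lg]
        refine add_one_eq ?_
        have := hA.mul1 b c (one_ne_zero (α := F)) (one_ne_zero (α := F))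
        rw [mul_one] at this
        exact this
      map_add' := fun u v => ft_ext fun b => ft_ext fun c => by
        rw [LinearMap.add_apply, LinearMap.add_apply, t2_lg, t2_lg, t2_lg]
        exact hA.mul1 b c (Units.ne_zero _) (Units.ne_zero _) }).liftBaseChange ℚ

lemma t3_lg (hA : Alt A) (a b c : F) : t3 hA (K4M.lg a) (K4M.lg b) (K4M.lg c) = A a b c := by
  rcases eq_or_ne a 0 with rfl | ha
  · rw [K4M.lg_zero, map_zero, LinearMap.zero_apply, LinearMap.zero_apply, hA.zero1]
  · rw [K4M.lg_of_ne ha]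
    unfold t3
    rw [LinearMap.liftBaseChange_tmul, one_smul]
    exact t2_lg hA a b c

lemma t3_swap12 (hA : Alt A) (x y z : K4M.FT F) : t3 hA x y z = -t3 hA y x z := by
  have h : t3 hA = -(t3 hA).flip := ft_ext fun a => ft_ext fun b => ft_ext fun c => by
    rw [LinearMap.neg_apply, LinearMap.neg_apply, LinearMap.neg_apply, LinearMap.flip_apply,
      t3_lg, t3_lg]
    exact hA.swap12 a b c
  exact LinearMap.congr_fun (LinearMap.congr_fun (LinearMap.congr_fun h x) y) z

lemma t3_swap23 (hA : Alt A) (x y z : K4M.FT F) : t3 hA x y z = -t3 hA x z y := by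
  have h1 : ∀ (y z : K4M.FT F) (a : F), t3 hA (K4M.lg a) y z = -t3 hA (K4M.lg a) z y := by
    intro y z a
    have h : t3 hA (K4M.lg a) = -(t3 hA (K4M.lg a)).flip := ft_ext fun b => ft_ext fun c => by
      rw [LinearMap.neg_apply, LinearMap.neg_apply, LinearMap.flip_apply, t3_lg, t3_lg]
      exact hA.swap23 a b c
    exact LinearMap.congr_fun (LinearMap.congr_fun h y) z
  have h2 : (((t3 hA).flip y).flip z) = -(((t3 hA).flip z).flip y) := ft_ext fun a => by
    rw [LinearMap.neg_apply, LinearMap.flip_apply, LinearMap.flip_apply, LinearMap.flip_apply,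
      LinearMap.flip_apply]
    exact h1 y z a
  exact LinearMap.congr_fun h2 x

lemma t3_eq12 (hA : Alt A) (x z : K4M.FT F) : t3 hA x x z = 0 := by
  have := t3_swap12 hA x x z
  linarith

lemma t3_eq23 (hA : Alt A) (x y : K4M.FT F) : t3 hA x y y = 0 := by
  have := t3_swap23 hA x y y
  linarith

lemma t3_eq13 (hA : Alt A) (x y : K4M.FT F) : t3 hA x y x = 0 := by
  rw [t3_swap23, t3_eq12, neg_zero]

/-- the alternating map -/
def altM (hA : Alt A) : (K4M.FT F) [⋀^Fin 3]→ₗ[ℚ] ℚ where
  toFun v := t3 hA (v 0) (v 1) (v 2)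
  map_update_add' := by
    intro inst v i x y
    have e : inst = instDecidableEqFin 3 := Subsingleton.elim _ _
    subst e
    fin_cases i <;> simp [Function.update]
  map_update_smul' := by
    intro inst v i c x
    have e : inst = instDecidableEqFin 3 := Subsingleton.elim _ _
    subst e
    fin_cases i <;> simp [Function.update]
  map_eq_zero_of_eq' := by
    intro v i j hij hne
    fin_cases i <;> fin_cases j <;> simp at hne hij ⊢ <;>
      simp [hij, t3_eq12, t3_eq23, t3_eq13]

/-- the linear form on the exterior algebra -/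
def altL (hA : Alt A) : ExteriorAlgebra ℚ (K4M.FT F) →ₗ[ℚ] ℚ :=
  ExteriorAlgebra.liftAlternating (Function.update (fun _ => 0) 3 (altM hA))

lemma altL_lg (hA : Alt A) (a b c : F) : altL hA (ExteriorAlgebra.ι ℚ (K4M.lg a) *
    ExteriorAlgebra.ι ℚ (K4M.lg b) * ExteriorAlgebra.ι ℚ (K4M.lg c)) = A a b c := by
  have h : ExteriorAlgebra.ι ℚ (K4M.lg a) * ExteriorAlgebra.ι ℚ (K4M.lg b) *
      ExteriorAlgebra.ι ℚ (K4M.lg c) =
      ExteriorAlgebra.ιMulti ℚ 3 ![K4M.lg a, K4M.lg b, K4M.lg c] := by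
    rw [ExteriorAlgebra.ιMulti_apply]
    simp [List.ofFn_succ, mul_assoc]
  rw [h]
  unfold altL
  rw [ExteriorAlgebra.liftAlternating_apply_ιMulti, Function.update_self]
  exact t3_lg hA a b c

end Alt

lemma iota_swap (u v : K4M.FT F) : ExteriorAlgebra.ι ℚ u * ExteriorAlgebra.ι ℚ v =
    -(ExteriorAlgebra.ι ℚ v * ExteriorAlgebra.ι ℚ u) :=
  eq_neg_of_add_eq_zero_left (ExteriorAlgebra.ι_add_mul_swap u v)

lemma alt_of (l : Module.Dual ℚ (ExteriorAlgebra ℚ (K4M.FT F))) : Alt fun a b c : F =>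
    l (ExteriorAlgebra.ι ℚ (K4M.lg a) * ExteriorAlgebra.ι ℚ (K4M.lg b) *
      ExteriorAlgebra.ι ℚ (K4M.lg c)) := by
  intro a b c d
  refine ⟨?_, ?_, ?_, fun ha hb => ?_⟩ <;> beta_reduce
  · rw [iota_swap (K4M.lg a), neg_mul, map_neg]
  · rw [mul_assoc, iota_swap (K4M.lg b), mul_neg, map_neg, mul_assoc]
  · rw [K4M.lg_zero, map_zero, zero_mul, zero_mul, map_zero]
  · rw [K4M.lg_mul ha hb, map_add, add_mul, add_mul, map_add]

theorem closed_iff (z : F × F →₀ ℚ) : Closed z ↔ MK4.Closed (phi F z) := by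
  rw [MK4.closed_iff]
  have e : MK4.dHS F (phi F z) = K4M.dH F (phiK F z) := rfl
  rw [e]
  constructor
  · intro h
    refine (Module.forall_dual_apply_eq_zero_iff ℚ (K4M.dH F (phiK F z))).mp fun l => ?_
    have h1 := h _ (alt_of l)
    rw [dH_phiK, map_finsuppSum]
    simp only [map_smul, smul_eq_mul]
    exact h1
  · intro h A hA
    have h1 : altL hA (K4M.dH F (phiK F z)) = 0 := by
      have h2 : K4M.dH F (phiK F z) = 0 := h
      rw [h2, map_zero]
    rw [dH_phiK, map_finsuppSum] at h1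
    simp only [map_smul, smul_eq_mul, altL_lg] at h1
    exact h1

end

end Pool.Agent.TK4
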