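import Pool.Agent.Lib_helper71.TU.BrC

set_option autoImplicit false

/-!
# Tate's normal form
-/

namespace Pool.Agent.TK4

open WeierstrassCurve.Affine

variable {k F : Type*} [Field k] [Field F] [Algebra k F]

lemma coeff_zero {x : F} (hx : Transcendental k x) {a₀ a₁ a₂ a₃ a₄ a₅ : k}
    (h : algebraMap k F a₀ + algebraMap k F a₁ * x + algebraMap k F a₂ * x ^ 2 +
      algebraMap k F a₃ * x ^ 3 + algebraMap k F a₄ * x ^ 4 + algebraMap k F a₅ * x ^ 5 = 0) :
    a₀ = 0 ∧ a₁ = 0 ∧ a₂ = 0 ∧ a₃ = 0 ∧ a₄ = 0 ∧ a₅ = 0 := by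
  rw [transcendental_iff] at hx
  have h1 := hx (Polynomial.C a₀ + Polynomial.C a₁ * Polynomial.X + Polynomial.C a₂ *
    Polynomial.X ^ 2 + Polynomial.C a₃ * Polynomial.X ^ 3 + Polynomial.C a₄ * Polynomial.X ^ 4 +
    Polynomial.C a₅ * Polynomial.X ^ 5) (by simpa using h)
  have e := fun n => congrArg (fun p => Polynomial.coeff p n) h1
  have e0 := e 0
  have e1 := e 1
  have e2 := e 2
  have e3 := e 3
  have e4 := e 4
  have e5 := e 5
  simp [Polynomial.coeff_X, Polynomial.coeff_C] at e0 e1 e2 e3 e4 e5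
  exact ⟨e0, e1, e2, e3, e4, e5⟩

lemma indep_xy {x y : F} (hx : Transcendental k x) {b c α β γ δ ε : k}
    (h : y ^ 2 + (1 - algebraMap k F c) * x * y - algebraMap k F b * y =
      x ^ 3 - algebraMap k F b * x ^ 2)
    (h' : (algebraMap k F α * x + algebraMap k F β) * y =
      algebraMap k F γ * x ^ 2 + algebraMap k F δ * x + algebraMap k F ε) :
    α = 0 ∧ β = 0 ∧ γ = 0 ∧ δ = 0 ∧ ε = 0 := by
  have key : algebraMap k F (ε ^ 2 - b * β * ε) +
      algebraMap k F (2 * δ * ε + (1 - c) * (β * ε) - b * (α * ε + β * δ)) * x +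
      algebraMap k F (δ ^ 2 + 2 * γ * ε + (1 - c) * (α * ε + β * δ) - b * (α * δ + β * γ) +
        b * β ^ 2) * x ^ 2 +
      algebraMap k F (2 * γ * δ + (1 - c) * (α * δ + β * γ) - b * (α * γ) - β ^ 2 +
        2 * b * α * β) * x ^ 3 +
      algebraMap k F (γ ^ 2 + (1 - c) * (α * γ) - 2 * α * β + b * α ^ 2) * x ^ 4 +
      algebraMap k F (-α ^ 2) * x ^ 5 = 0 := by
    simp only [map_sub, map_add, map_mul, map_pow, map_neg, map_one, map_ofNat]
    generalize algebraMap k F α = A at *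
    generalize algebraMap k F β = B at *
    generalize algebraMap k F γ = C at *
    generalize algebraMap k F δ = D at *
    generalize algebraMap k F ε = E at *
    generalize algebraMap k F b = b' at *
    generalize algebraMap k F c = c' at *
    have h2 : ((A * x + B) * y) ^ 2 + (1 - c') * x * (A * x + B) * ((A * x + B) * y) -
        b' * (A * x + B) * ((A * x + B) * y) = (x ^ 3 - b' * x ^ 2) * (A * x + B) ^ 2 := by
      linear_combination (A * x + B) ^ 2 * h
    rw [h'] at h2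
    linear_combination h2
  obtain ⟨e0, e1, e2, e3, e4, e5⟩ := coeff_zero hx key
  have hα : α = 0 := by simpa using e5
  subst hα
  have hγ : γ = 0 := by simpa using e4
  subst hγ
  have hβ : β = 0 := by simpa using e3
  subst hβ
  have hδ : δ = 0 := by simpa using e2
  have hε : ε = 0 := by simpa using e0
  exact ⟨rfl, rfl, rfl, hδ, hε⟩

variable [DecidableEq k] {W : WeierstrassCurve.Affine k}

omit [DecidableEq k] in
theorem tate_of {P : W.Point} {X Y : F} (hg : Generic W X Y) {b c : k} {x y : F}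
    (h : FK4.Tate P X Y b c x y) : Tate P b c := by
  obtain ⟨h1, h2⟩ := (generic_iff W X Y).mp hg
  obtain ⟨u, r, s, t, hn, hP, hu, hb, hX, hY, hE⟩ := h
  have hx : Transcendental k x := by
    intro hx
    apply h2
    rw [hX]
    exact ((isAlgebraic_algebraMap _).mul hx).add (isAlgebraic_algebraMap _)
  have h3 : (algebraMap k F ((W.a₁ + 2 * s) * u ^ 5 - u ^ 6 * (1 - c)) * x +
      algebraMap k F ((W.a₃ + r * W.a₁ + 2 * t) * u ^ 3 + u ^ 6 * b)) * y =
      algebraMap k F ((W.a₂ - s * W.a₁ + 3 * r - s ^ 2) * u ^ 4 + u ^ 6 * b) * x ^ 2 +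
      algebraMap k F ((W.a₄ - s * W.a₃ + 2 * r * W.a₂ - (t + r * s) * W.a₁ + 3 * r ^ 2
        - 2 * s * t) * u ^ 2) * x +
      algebraMap k F (W.a₆ + r * W.a₄ + r ^ 2 * W.a₂ + r ^ 3 - t * W.a₃ - t ^ 2 -
        r * t * W.a₁) := by
    rw [hX, hY] at h1
    simp only [map_sub, map_add, map_mul, map_pow, map_one, map_ofNat] at h1 ⊢
    linear_combination h1 - (algebraMap k F u) ^ 6 * hE
  obtain ⟨e1, e3, e2, e4, e6⟩ := indep_xy hx hE h3
  refine ⟨⟨Units.mk0 u hu, r, s, t⟩, hn, hP, ?_, hb⟩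
  have e1' : W.a₁ + 2 * s = u * (1 - c) := by
    have : u ^ 5 * (W.a₁ + 2 * s - u * (1 - c)) = 0 := by linear_combination e1
    exact sub_eq_zero.mp ((mul_eq_zero.mp this).resolve_left (pow_ne_zero 5 hu))
  have e3' : W.a₃ + r * W.a₁ + 2 * t = -(u ^ 3 * b) := by
    have : u ^ 3 * (W.a₃ + r * W.a₁ + 2 * t + u ^ 3 * b) = 0 := by linear_combination e3
    exact eq_neg_of_add_eq_zero_left ((mul_eq_zero.mp this).resolve_left (pow_ne_zero 3 hu))
  have e2' : W.a₂ - s * W.a₁ + 3 * r - s ^ 2 = -(u ^ 2 * b) := by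
    have : u ^ 4 * (W.a₂ - s * W.a₁ + 3 * r - s ^ 2 + u ^ 2 * b) = 0 := by
      linear_combination e2
    exact eq_neg_of_add_eq_zero_left ((mul_eq_zero.mp this).resolve_left (pow_ne_zero 4 hu))
  have e4' : W.a₄ - s * W.a₃ + 2 * r * W.a₂ - (t + r * s) * W.a₁ + 3 * r ^ 2 - 2 * s * t = 0 :=
    (mul_eq_zero.mp e4).resolve_right (pow_ne_zero 2 hu)
  apply WeierstrassCurve.ext
  · rw [WeierstrassCurve.variableChange_a₁]
    simp only [Units.val_inv_eq_inv_val, Units.val_mk0]
    rw [e1']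
    field_simp
  · rw [WeierstrassCurve.variableChange_a₂]
    simp only [Units.val_inv_eq_inv_val, Units.val_mk0]
    rw [e2']
    field_simp
  · rw [WeierstrassCurve.variableChange_a₃]
    simp only [Units.val_inv_eq_inv_val, Units.val_mk0]
    rw [e3']
    field_simp
  · rw [WeierstrassCurve.variableChange_a₄]
    simp only [Units.val_inv_eq_inv_val, Units.val_mk0]
    rw [e4', mul_zero]
  · rw [WeierstrassCurve.variableChange_a₆]
    simp only [Units.val_inv_eq_inv_val, Units.val_mk0]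
    rw [e6, mul_zero]

end Pool.Agent.TK4
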