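import Pool.Agent.Lib_helper71.TU.BrF

set_option autoImplicit false

/-!
# The new and the old definitions are equivalent

This file is not used by the hand-in.
-/

open scoped TensorProduct WithZero

namespace Pool.Agent.TK4

open WeierstrassCurve.Affine

noncomputable section

section Reg

variable {k F : Type*} [Field k] [Field F] [Algebra k F]

lemma loop_iff {W : WeierstrassCurve.Affine k} {σ : k →+* ℝ} {p q : ℝ → ℝ} :
    Loop (W.map σ) p q ↔ FK4.Loop W σ p q := by
  refine ⟨fun h => ⟨fun s => ?_, h.der, h.lim⟩, loop_new⟩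
  have h1 := h.eq s
  rw [equation_iff] at h1
  exact h1

/-- a function on the symbols which respects the relations, on the formal sums modulo them -/
def linQ (r : F × F → ℝ) (hr : ∀ z ∈ Rel F, z.sum (fun p n => (n : ℝ) * r p) = 0) :
    Q F →ₗ[ℚ] ℝ :=
  Submodule.liftQ (Submodule.span ℚ (Rel F)) (Finsupp.linearCombination ℚ r) (by
    rw [Submodule.span_le]
    intro z hz
    rw [SetLike.mem_coe, LinearMap.mem_ker, Finsupp.linearCombination_apply, ← hr z hz]
    refine Finsupp.sum_congr fun p _ => ?_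
    rw [Rat.smul_def])

/-- a function on the symbols which respects the relations is a linear map on `H(F)` -/
def lin (r : F × F → ℝ) (hr : ∀ z ∈ Rel F, z.sum (fun p n => (n : ℝ) * r p) = 0) :
    MK4.HK F →ₗ[ℚ] ℝ := (linQ r hr).comp (psi (F := F) : K4M.HK F →ₗ[ℚ] Q F)

lemma lin_phi (r : F × F → ℝ) (hr : ∀ z ∈ Rel F, z.sum (fun p n => (n : ℝ) * r p) = 0)
    (z : F × F →₀ ℚ) : lin r hr (phi F z) = z.sum (fun p n => (n : ℝ) * r p) := by
  have h1 : lin r hr (phi F z) = Finsupp.linearCombination ℚ r z := by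
    show linQ r hr (psi (phiK F z)) = _
    unfold linQ
    rw [psi_phiK, Submodule.liftQ_apply]
  rw [h1, Finsupp.linearCombination_apply]
  refine Finsupp.sum_congr fun p _ => ?_
  rw [Rat.smul_def]

theorem regNe_iff {σ : k →+* ℝ} {ξ : F × F →₀ ℚ} : RegNe σ ξ ↔ FK4.RegNe σ (phi F ξ) := by
  refine ⟨fun h => ?_, regNe_of⟩
  obtain ⟨W, x, y, p, q, r, hg, ht, hl, hi, hr, hz⟩ := h
  refine ⟨W, x, y, p, q, lin r hr, (generic_iff W x y).mp hg, ht, loop_iff.mp hl,
    fun f g φ ψ h1 h2 h3 => ?_, ?_⟩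
  · have h4 := hi f g φ ψ h1 (val_new h2) (val_new h3)
    rw [den_eq] at h4
    refine ⟨h4.1, ?_⟩
    rw [← phi_sym, lin_phi]
    unfold sym
    rw [Finsupp.sum_single_index (by rw [Rat.cast_zero, zero_mul]), Rat.cast_one, one_mul]
    exact h4.2
  · rw [lin_phi]
    exact hz

end Reg

variable {k F : Type*} [Field k] [DecidableEq k] [CharZero k] [Field F] [Algebra k F]
  {W : WeierstrassCurve.Affine k}

theorem closedIn_iff {H : AddSubgroup W.Point} {X Y : F} {ξ : F × F →₀ ℚ} :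
    ClosedIn H X Y ξ ↔ FK4.ClosedIn H X Y (Submodule.span ℚ {phi F ξ}) := by
  refine ⟨fun h => ⟨fun w hw hc => ?_, fun ha ht w hw hc hu => ?_⟩, closedIn_of le_rfl⟩
  · obtain ⟨z, rfl, hz⟩ := exists_S hw
    have h1 := (h z hz ((closed_iff z).mpr hc)).1
    rw [mem_Sp, Submodule.mem_span_insert] at h1
    obtain ⟨a, v, hv, e⟩ := h1
    refine ⟨a • phi F ξ, Submodule.smul_mem _ _ (Submodule.mem_span_singleton_self _), ?_⟩
    rw [e, add_sub_cancel_left]
    refine Submodule.span_mono ?_ hv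
    rintro _ ⟨_, ⟨c, rfl⟩, u, -, rfl⟩
    exact ⟨c, u, rfl⟩
  · obtain ⟨z, rfl, hz⟩ := exists_S hw
    have h1 := (h z hz ((closed_iff z).mpr hc)).2 ha ht ((noRes_iff k z).mpr hu)
    rw [mem_Sp, Submodule.mem_span_insert] at h1
    obtain ⟨a, v, hv, e⟩ := h1
    refine ⟨a • phi F ξ, Submodule.smul_mem _ _ (Submodule.mem_span_singleton_self _), ?_⟩
    rw [e, add_sub_cancel_left]
    refine Submodule.span_mono ?_ hv
    rintro _ ⟨_, ⟨c, rfl⟩, _, ⟨κ, rfl⟩, rfl⟩
    exact ⟨c, κ, rfl⟩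

theorem closedIn_zero_iff {H : AddSubgroup W.Point} {X Y : F} :
    ClosedIn H X Y 0 ↔ FK4.ClosedIn H X Y ⊥ := by
  rw [closedIn_iff, map_zero, Submodule.span_zero_singleton]

theorem line_iff {P : W.Point} {X Y : F} :
    Line (AddSubgroup.zmultiples P) X Y ↔ FK4.Line P X Y := by
  refine ⟨fun h => ?_, line_of⟩
  obtain ⟨ξ, h1, h2, h3, h4, h5⟩ := h
  exact ⟨phi F ξ, ⟨(mem_S _ X Y ξ).mp h1, (closed_iff ξ).mp h2, (noRes_iff k ξ).mp h3⟩,
    closedIn_iff.mp h4, fun σ hσ => regNe_iff.mp (h5 σ hσ)⟩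

omit [DecidableEq k] [CharZero k] in
theorem tate_iff {P : W.Point} {X Y : F} (hg : Generic W X Y) {b c : k} :
    Tate P b c ↔ ∃ x y : F, FK4.Tate P X Y b c x y := by
  refine ⟨fun h => ?_, fun ⟨x, y, h⟩ => tate_of hg h⟩
  obtain ⟨C, h, hP, hC, hb⟩ := h
  obtain ⟨h1, h2⟩ := (generic_iff W X Y).mp hg
  have e1 := congrArg WeierstrassCurve.a₁ hC
  have e2 := congrArg WeierstrassCurve.a₂ hC
  have e3 := congrArg WeierstrassCurve.a₃ hC
  have e4 := congrArg WeierstrassCurve.a₄ hC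
  have e6 := congrArg WeierstrassCurve.a₆ hC
  rw [WeierstrassCurve.variableChange_a₁] at e1
  rw [WeierstrassCurve.variableChange_a₂] at e2
  rw [WeierstrassCurve.variableChange_a₃] at e3
  rw [WeierstrassCurve.variableChange_a₄] at e4
  rw [WeierstrassCurve.variableChange_a₆] at e6
  obtain ⟨u, r, s, t⟩ := C
  have hu : (u : k) ≠ 0 := Units.ne_zero u
  have hv : ((u⁻¹ : kˣ) : k) = (u : k)⁻¹ := Units.val_inv_eq_inv_val u
  dsimp only at e1 e2 e3 e4 e6
  rw [hv] at e1 e2 e3 e4 e6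
  set U : k := (u : k) with hU
  have e1' : W.a₁ + 2 * s = U * (1 - c) := by rw [← e1]; field_simp
  have e2' : W.a₂ - s * W.a₁ + 3 * r - s ^ 2 = -(U ^ 2 * b) := by
    have := congrArg (U ^ 2 * ·) e2
    simp only [inv_pow] at this
    rw [mul_inv_cancel_left₀ (pow_ne_zero 2 hu)] at this
    rw [this]; ring
  have e3' : W.a₃ + r * W.a₁ + 2 * t = -(U ^ 3 * b) := by
    have := congrArg (U ^ 3 * ·) e3
    simp only [inv_pow] at this
    rw [mul_inv_cancel_left₀ (pow_ne_zero 3 hu)] at this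
    rw [this]; ring
  have e4' : W.a₄ - s * W.a₃ + 2 * r * W.a₂ - (t + r * s) * W.a₁ + 3 * r ^ 2 - 2 * s * t = 0 :=
    (mul_eq_zero.mp e4).resolve_left (pow_ne_zero 4 (inv_ne_zero hu))
  have e6' : W.a₆ + r * W.a₄ + r ^ 2 * W.a₂ + r ^ 3 - t * W.a₃ - t ^ 2 - r * t * W.a₁ = 0 :=
    (mul_eq_zero.mp e6).resolve_left (pow_ne_zero 6 (inv_ne_zero hu))
  have hUF : algebraMap k F U ≠ 0 := (map_ne_zero _).mpr hu
  set V : F := algebraMap k F U with hV
  set x : F := (X - algebraMap k F r) / V ^ 2 with hx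
  set y : F := (Y - algebraMap k F t - algebraMap k F s * (X - algebraMap k F r)) / V ^ 3 with hy
  have hX : X = V ^ 2 * x + algebraMap k F r := by rw [hx]; field_simp; ring
  have hY : Y = V ^ 3 * y + V ^ 2 * algebraMap k F s * x + algebraMap k F t := by
    rw [hx, hy]; field_simp; ring
  refine ⟨x, y, U, r, s, t, h, hP, hu, hb, ?_, ?_, ?_⟩
  · rw [map_pow]; exact hX
  · rw [map_pow, map_mul, map_pow]; exact hY
  · have f1 := congrArg (algebraMap k F) e1'
    have f2 := congrArg (algebraMap k F) e2'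
    have f3 := congrArg (algebraMap k F) e3'
    have f4 := congrArg (algebraMap k F) e4'
    have f6 := congrArg (algebraMap k F) e6'
    simp only [map_sub, map_add, map_mul, map_pow, map_neg, map_one, map_ofNat, map_zero]
      at f1 f2 f3 f4 f6
    have h3 : V ^ 6 * (y ^ 2 + (1 - algebraMap k F c) * x * y - algebraMap k F b * y) =
        V ^ 6 * (x ^ 3 - algebraMap k F b * x ^ 2) := by
      rw [hX, hY] at h1
      linear_combination h1 - V ^ 5 * x * y * f1 + V ^ 4 * x ^ 2 * f2 - V ^ 3 * y * f3 +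
        V ^ 2 * x * f4 + f6
    exact mul_left_cancel₀ (pow_ne_zero 6 hUF) h3

omit [CharZero k] in
theorem siegel_iff {H : AddSubgroup W.Point} [Fintype H] (hodd : ∀ a : H, a + a = 0 → a = 0) :
    SiegelIndep H ↔ FK4.SiegelIndep H := by
  classical
  refine ⟨siegel_of hodd, fun h => ⟨fun A E hA hs hp x hx => ?_⟩⟩
  obtain rfl : A = absF H := by
    ext x
    rw [hA x, mem_absF]
  set e : H → ℤ := fun a => if a = 0 then 0 else E (FK4.absc (a : W.Point)) with he
  have he0 : e 0 = 0 := if_pos rfl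
  have hea : ∀ a : H, a ≠ 0 → e a = E (FK4.absc (a : W.Point)) := fun a ha => if_neg ha
  have h1 := h e (fun a => by
    by_cases ha : a = 0
    · rw [ha, neg_zero]
    · rw [hea a ha, hea (-a) (neg_ne_zero.mpr ha)]
      exact congrArg E (absc_neg (a : W.Point))) he0
    (by rw [sum_pairs hodd e E he0 hea, ← Finset.mul_sum, hs, mul_zero])
    (by
      rw [prod_pairs hodd (fun a : H => FK4.gam H (a : W.Point) ^ e a) (fun x => gm H x ^ E x)]
      · rw [Finset.prod_pow]
        have : ∏ x ∈ absF H, gm H x ^ E x = 1 := hp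
        rw [this, one_pow]
      · rw [he0, zpow_zero]
      · intro a ha
        rw [gam_eq hodd a ha, hea a ha])
  obtain ⟨y, h2, h3⟩ := (mem_absF H).mp hx
  have h4 : (⟨_, h3⟩ : H) ≠ 0 := fun h0 => Point.some_ne_zero h2 (congrArg Subtype.val h0)
  have h5 := h1 ⟨_, h3⟩
  rw [hea _ h4] at h5
  exact h5

omit [CharZero k] in
theorem galTrans_iff {p : ℕ} : GalTrans W p ↔ FK4.GalTrans W p := by
  refine ⟨galTrans_of, fun h x y x' y' h1 h2 h3 h4 => ?_⟩
  obtain ⟨s, e1, e2, e3, e4, e6, hx, hy⟩ := h x y x' y' h1 h2 h3 h4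
  refine ⟨s, s.bijective, ?_, hx, hy⟩
  exact WeierstrassCurve.ext e1 e2 e3 e4 e6

end

end Pool.Agent.TK4
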