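import Pool.Agent.Lib_helper24.FAM.GP
import Pool.Agent.Lib_helper24.FAM.Dich

set_option autoImplicit false

/-!
# The theorem with the definitions of `FK4` and `MK4`

The elements of `K₄` of an elliptic curve built on the functions supported on a finite group of
points.
-/

namespace Pool.Agent.FK4

open Pool.Agent.MK4
open scoped TensorProduct WithZero

theorem torsionUnits.{u, v} {k : Type u} {F : Type v} [Field k] [DecidableEq k] [CharZero k]
    [Field F] [Algebra k F] (W : WeierstrassCurve.Affine k) (X Y : F) (hg : Generic W X Y) :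
    Rational.{v} ∧
    (∀ (H : AddSubgroup W.Point) [Fintype H], General H X Y ∧ SmallGroup H X Y) ∧
    (∀ P : W.Point,
      (addOrderOf P = 4 → Four P X Y) ∧ (addOrderOf P = 5 → Five P X Y) ∧
        (addOrderOf P = 6 → Six P X Y) ∧ (addOrderOf P = 7 → Seven P X Y) ∧
        (addOrderOf P = 8 → Eight P X Y) ∧ (addOrderOf P = 9 → Nine P X Y) ∧
        (addOrderOf P = 10 → Ten P X Y) ∧ (addOrderOf P = 12 → Twelve P X Y)) ∧
    OverQ :=
  ⟨rational, fun H _ => ⟨general hg H, smallGroup hg H⟩,
    fun P => ⟨four' hg P, five' hg P, six hg P, seven hg P, eight hg P, nine hg P, ten hg P,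
      twelve hg P⟩, overQ⟩

end Pool.Agent.FK4
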