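import Mathlib

set_option autoImplicit false

/-!
# Formal sums of symbols `{f}₂ ⊗ g`: relations, closed elements, residues

`H(F) = B₂(F) ⊗ F^*_ℚ / ⟨{f}₂ ⊗ f⟩` for a field `F`.  An element of `H(F)` is given by a formal sum
`z : F × F →₀ ℚ`, which stands for `∑ z(f,g) {f}₂ ⊗ g`; two formal sums give the same element if
their difference is in the span of `Rel F`.
-/

open scoped WithZero

namespace Pool.Agent.TK4

noncomputable section

variable {F : Type*} [Field F]

variable (F) in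
/-- The relations of `B₂(F)`: `{0} = {1} = 0` and the five term relation. -/
def rel2 : Set (F →₀ ℚ) :=
  {z | z = Finsupp.single 0 1 ∨ z = Finsupp.single 1 1 ∨
    ∃ x y : F, x ≠ 0 ∧ x ≠ 1 ∧ y ≠ 0 ∧ y ≠ 1 ∧ x ≠ y ∧
      z = Finsupp.single x 1 - Finsupp.single y 1 + Finsupp.single (y / x) 1
        - Finsupp.single ((1 - x⁻¹) / (1 - y⁻¹)) 1 + Finsupp.single ((1 - x) / (1 - y)) 1}

/-- The symbol `{f}₂ ⊗ g`. -/
def sym (f g : F) : F × F →₀ ℚ := Finsupp.single (f, g) 1

variable (F) in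
/-- The relations between the symbols in `H(F)`: `r ⊗ g` for the relations `r` of `B₂(F)`;
`{f}₂ ⊗ g` is multiplicative in `g`; `{f}₂ ⊗ f = 0`; and `(f, 0)` stands for `0`. -/
def Rel : Set (F × F →₀ ℚ) :=
  {z | (∃ r ∈ rel2 F, ∃ g, z = r.mapDomain fun x => (x, g)) ∨
    (∃ f g h, g ≠ 0 ∧ h ≠ 0 ∧ z = sym f (g * h) - sym f g - sym f h) ∨
      ∃ f, z = sym f f ∨ z = sym f 0}

/-- The span of `ξ`, of the symbols `{f}₂ ⊗ g`, `f` in `A`, `g` in `B`, and of the relations
(`Sp A B 0`: no `ξ`). -/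
def Sp (A B : Set F) (ξ : F × F →₀ ℚ) : Submodule ℚ (F × F →₀ ℚ) :=
  Submodule.span ℚ (insert ξ (Rel F ∪ Set.image2 sym A B))

/-- `A` is an alternating function of three variables on `F^*`, multiplicative in each of them. -/
def Alt (A : F → F → F → ℚ) : Prop :=
  ∀ a b c d, A a b c = -A b a c ∧ A a b c = -A a c b ∧ A 0 b c = 0 ∧
    (a ≠ 0 → b ≠ 0 → A (a * b) c d = A a c d + A b c d)

/-- `z` is closed: its differential `∑ z(f,g) (1-f) ∧ f ∧ g` in `Λ³ F^*_ℚ` is zero, i.e. every
alternating function vanishes on it (the elements of `Λ³` of a vector space are separated by the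
alternating functions). -/
def Closed (z : F × F →₀ ℚ) : Prop :=
  ∀ A, Alt A → z.sum (fun p n => n * A (1 - p.1) p.1 p.2) = 0

/-- `z` has no residues: for every discrete valuation `v` of `F` which is trivial on `k`, with ring
`O`, the residue `∑ z(f,g) v(g) {f̄}₂` in `B₂` of the residue field is zero, where `f̄` is the residue
class of `f` in `O` (and `{f̄}₂ = 0` if `f` is not in `O`). -/
structure NoRes (k : Type*) [Field k] [Algebra k F] (z : F × F →₀ ℚ) : Prop where
  res : ∀ (v : Valuation F ℤᵐ⁰) (O : ValuationSubring F)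
    (r : F → IsLocalRing.ResidueField O →₀ ℚ), (∀ c : k, c ≠ 0 → v (algebraMap k F c) = 1) →
    (∀ f, f ∈ O ↔ v f ≤ 1) →
    (∀ f h, r f = Finsupp.single (IsLocalRing.residue O ⟨f, h⟩) 1) → (∀ f ∉ O, r f = 0) →
    z.sum (fun p n => (n * WithZero.log (v p.2)) • r p.1) ∈
      Submodule.span ℚ (rel2 (IsLocalRing.ResidueField O))

end

end Pool.Agent.TK4
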